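import Pool.Agent.ConjProd.Pairs

/-!
# The commutators of products of complex conjugations
-/

set_option linter.unusedSectionVars false

namespace Pool.Agent.ConjProd

open ParityOdd
open scoped Classical

variable {G : Type} [Group G] [Fintype G] {C : Set G}

/-- A linear character of `M` is trivial on the commutators of `M`. -/
theorem lin_commutator {M : Subgroup G} {l : G → ℂ} (hl : IsLin M l) {A : Subgroup G}
    (hA : A ≤ M) : ∀ b ∈ ⁅A, A⁆, l b = 1 := by
  intro b hb
  have hinv : ∀ x ∈ M, l x * l x⁻¹ = 1 := by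
    intro x hx
    rw [← hl.2 x hx _ (M.inv_mem hx), mul_inv_cancel, hl.1]
  have h : b ∈ M ∧ l b = 1 := by
    rw [Subgroup.commutator_def] at hb
    induction hb using Subgroup.closure_induction with
    | mem x hx =>
      obtain ⟨u, hu, v, hv, rfl⟩ := hx
      have hu := hA hu
      have hv := hA hv
      rw [commutatorElement_def]
      refine ⟨M.mul_mem (M.mul_mem (M.mul_mem hu hv) (M.inv_mem hu)) (M.inv_mem hv), ?_⟩
      rw [hl.2 _ (M.mul_mem (M.mul_mem hu hv) (M.inv_mem hu)) _ (M.inv_mem hv),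
        hl.2 _ (M.mul_mem hu hv) _ (M.inv_mem hu), hl.2 _ hu _ hv]
      linear_combination (l v * l v⁻¹) * hinv u hu + hinv v hv
    | one => exact ⟨M.one_mem, hl.1⟩
    | mul x y _ _ hx hy =>
      exact ⟨M.mul_mem hx.1 hy.1, by rw [hl.2 _ hx.1 _ hy.1, hx.2, hy.2, one_mul]⟩
    | inv x _ hx =>
      have := hinv x hx.1
      rw [hx.2, one_mul] at this
      exact ⟨M.inv_mem hx.1, this⟩
  exact h.2

/-- The normal subgroup generated by the commutators of products of complex conjugations. -/
theorem comm_normal (hC : Conjugations C) : (⁅pairs C, pairs C⁆ : Subgroup G).Normal := by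
  have := pairs_normal hC
  infer_instance

theorem ind_eq_one {B : Subgroup G} (hB : B.Normal) {M : Subgroup G} {l : G → ℂ} (hBM : B ≤ M)
    (hl : ∀ b ∈ B, l b = 1) {b : G} (hb : b ∈ B) : Ind M l b = Ind M l 1 := by
  unfold Ind
  congr 1
  refine Finset.sum_congr rfl fun x _ => ?_
  have h1 : x⁻¹ * b * x ∈ B := by
    have := hB.conj_mem b hb x⁻¹
    rwa [inv_inv] at this
  have h2 : x⁻¹ * 1 * x = 1 := by group
  rw [h2, if_pos (hBM h1), if_pos M.one_mem, hl _ h1, hl 1 B.one_mem]

/-- Combinations of the induced characters are constant on the commutators. -/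
theorem span_eq_one (hC : Conjugations C) {S : Set (Subgroup G × (G → ℂ))}
    (hS : S ⊆ realLin C ∪ cmLin C) {f : G → ℂ} (hf : f ∈ Submodule.span ℂ (inds S)) {b : G}
    (hb : b ∈ ⁅pairs C, pairs C⁆) : f b = f 1 := by
  have hpn := pairs_normal hC
  induction hf using Submodule.span_induction with
  | mem f hf =>
    obtain ⟨p, hp, rfl⟩ := hf
    have h1 := pairs_le hC (hS hp)
    have h2 : IsLin p.1 p.2 := by
      rcases hS hp with h | h
      · exact h.2
      · exact h.2.2
    exact ind_eq_one (comm_normal hC)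
      ((Subgroup.commutator_le_left _ _).trans h1) (lin_commutator h2 h1) hb
  | zero => rfl
  | add f g _ _ hf hg => rw [Pi.add_apply, Pi.add_apply, hf, hg]
  | smul a f _ hf => rw [Pi.smul_apply, Pi.smul_apply, hf]

/-- If the commutators lie in `H`, then products of complex conjugations commute on the Galois
closure of the field of `H`. -/
theorem commute_of_le (hC : Conjugations C) {H : Subgroup G}
    (h : ⁅pairs C, pairs C⁆ ≤ H) : CommuteOn C H := by
  have := comm_normal hC
  have h1 : ⁅pairs C, pairs C⁆ ≤ H.normalCore := Subgroup.normal_le_normalCore.2 h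
  intro a ha b hb c hc d hd
  have h2 := Subgroup.commutator_mem_commutator (mul_mem_pairs ha hb) (mul_mem_pairs hc hd)
  rw [commutatorElement_def] at h2
  exact h1 h2

/-- Weak form of the converse. -/
theorem back_span (hC : Conjugations C) {S : Set (Subgroup G × (G → ℂ))}
    (hS : S ⊆ realLin C ∪ cmLin C) {H : Subgroup G}
    (h : Ind H (fun _ => 1) ∈ Submodule.span ℂ (inds S)) : CommuteOn C H := by
  refine commute_of_le hC fun b hb => ?_
  have h1 := span_eq_one hC hS h hb
  unfold Ind at h1
  have hne : ((Nat.card H : ℂ))⁻¹ ≠ 0 := by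
    have : (Nat.card H : ℂ) ≠ 0 := by exact_mod_cast Nat.card_pos.ne'
    exact inv_ne_zero this
  have h2 := mul_left_cancel₀ hne h1
  rw [Finset.sum_boole, Finset.sum_boole] at h2
  have h3 : (Finset.univ.filter fun x : G => x⁻¹ * 1 * x ∈ H) = Finset.univ := by
    apply Finset.filter_true_of_mem
    intro x _
    have : x⁻¹ * 1 * x = 1 := by group
    rw [this]
    exact H.one_mem
  rw [h3] at h2
  have h4 : (Finset.univ.filter fun x : G => x⁻¹ * b * x ∈ H) = Finset.univ := by
    have h2' : (Finset.univ.filter fun x : G => x⁻¹ * b * x ∈ H).card =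
        (Finset.univ : Finset G).card := by exact_mod_cast h2
    exact Finset.eq_of_subset_of_card_le (Finset.subset_univ _) h2'.ge
  have h5 : (1 : G) ∈ Finset.univ.filter fun x : G => x⁻¹ * b * x ∈ H := by
    rw [h4]
    exact Finset.mem_univ _
  have h6 := (Finset.mem_filter.1 h5).2
  simpa using h6

/-- The functions whose averages over the cosets of `B` vanish. -/
def aug (B : Subgroup G) : Submodule ℂ (G → ℂ) where
  carrier := {f | ∀ x, ∑ b : G, (if b ∈ B then f (b * x) else 0) = 0}
  add_mem' := by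
    intro f g hf hg x
    have h : ∑ b : G, (if b ∈ B then (f + g) (b * x) else 0) =
        ∑ b : G, (if b ∈ B then f (b * x) else 0) + ∑ b : G, (if b ∈ B then g (b * x) else 0) := by
      rw [← Finset.sum_add_distrib]
      refine Finset.sum_congr rfl fun b _ => ?_
      split_ifs
      · rfl
      · rw [add_zero]
    rw [h, hf x, hg x, add_zero]
  zero_mem' := by
    intro x
    refine Finset.sum_eq_zero fun b _ => ?_
    split_ifs <;> rfl
  smul_mem' := by
    intro a f hf x
    have h : ∑ b : G, (if b ∈ B then (a • f) (b * x) else 0) =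
        a * ∑ b : G, (if b ∈ B then f (b * x) else 0) := by
      rw [Finset.mul_sum]
      refine Finset.sum_congr rfl fun b _ => ?_
      split_ifs
      · rfl
      · rw [mul_zero]
    rw [h, hf x, mul_zero]

/-- Left translation of functions. -/
def trans (g : G) : (G → ℂ) →ₗ[ℂ] (G → ℂ) where
  toFun f := fun x => f (g⁻¹ * x)
  map_add' _ _ := rfl
  map_smul' _ _ := rfl

theorem trans_mem {B : Subgroup G} (hB : B.Normal) (g : G) : ∀ f ∈ aug B, trans g f ∈ aug B := by
  intro f hf x
  have h1 := hf (g⁻¹ * x)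
  refine (Fintype.sum_equiv (MulAut.conj g⁻¹).toEquiv _ _ fun b => ?_).trans h1
  have e1 : (MulAut.conj g⁻¹).toEquiv b = g⁻¹ * b * g := by
    show g⁻¹ * b * (g⁻¹)⁻¹ = _
    rw [inv_inv]
  rw [e1]
  have h2 : g⁻¹ * b * g ∈ B ↔ b ∈ B := by
    constructor
    · intro h
      have := hB.conj_mem _ h g
      have e : g * (g⁻¹ * b * g) * g⁻¹ = b := by group
      rwa [e] at this
    · intro h
      have := hB.conj_mem _ h g⁻¹
      rwa [inv_inv] at this
  by_cases hb : b ∈ B
  · rw [if_pos hb, if_pos (h2.2 hb)]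
    show f (g⁻¹ * (b * x)) = f (g⁻¹ * b * g * (g⁻¹ * x))
    congr 1
    group
  · rw [if_neg hb, if_neg (fun h => hb (h2.1 h))]

/-- The representation on the functions whose averages over the cosets of `B` vanish. -/
def augRep (B : Subgroup G) (hB : B.Normal) : Representation ℂ G (aug B) where
  toFun g := (trans g).restrict (trans_mem hB g)
  map_one' := by
    ext f x
    show (f : G → ℂ) (1⁻¹ * x) = (f : G → ℂ) x
    rw [inv_one, one_mul]
  map_mul' g h := by
    ext f x
    show (f : G → ℂ) ((g * h)⁻¹ * x) = (f : G → ℂ) (h⁻¹ * (g⁻¹ * x))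
    rw [mul_inv_rev, mul_assoc]

theorem augRep_apply {B : Subgroup G} (hB : B.Normal) (g : G) (f : aug B) (x : G) :
    (augRep B hB g f : G → ℂ) x = (f : G → ℂ) (g⁻¹ * x) := rfl

/-- Strong form of the converse. -/
theorem back_transfer (hC : Conjugations C) {S : Set (Subgroup G × (G → ℂ))}
    (hS : S ⊆ realLin C ∪ cmLin C) {H : Subgroup G} {T : Set ℕ}
    (hT : 0 ∈ T) (h : Transfer T S (H, fun _ => 1)) : CommuteOn C H := by
  have hB := comm_normal hC
  have hpn := pairs_normal hC
  set B : Subgroup G := ⁅pairs C, pairs C⁆ with hBdef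
  obtain ⟨r, hr, hr'⟩ := h (aug B) (augRep B hB) (fun _ => 0) (fun _ _ _ _ => rfl) (by
    intro p hp
    refine ⟨0, rfl, fun _ => ?_⟩
    have h1 := pairs_le hC (hS hp)
    have h2 : IsLin p.1 p.2 := by
      rcases hS hp with h | h
      · exact h.2
      · exact h.2.2
    have hBp : B ≤ p.1 := (Subgroup.commutator_le_left _ _).trans h1
    have hB1 := lin_commutator h2 h1
    have h3 : eig (augRep B hB) p.1 p.2 = ⊥ := by
      rw [Submodule.eq_bot_iff]
      intro f hf
      ext x
      have h4 : ∀ b ∈ B, (f : G → ℂ) (b * x) = (f : G → ℂ) x := by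
        intro b hb
        have h5 := hf b⁻¹ (hBp (B.inv_mem hb))
        rw [hB1 _ (B.inv_mem hb), one_smul] at h5
        have h6 := congrArg (fun v : aug B => (v : G → ℂ) x) h5
        simp only [augRep_apply, inv_inv] at h6
        exact h6
      have h7 := f.2 x
      have h8 : ∑ b : G, (if b ∈ B then (f : G → ℂ) (b * x) else 0) =
          ∑ b : G, (if b ∈ B then (f : G → ℂ) x else 0) := by
        refine Finset.sum_congr rfl fun b _ => ?_
        by_cases hb : b ∈ B
        · rw [if_pos hb, if_pos hb, h4 b hb]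
        · rw [if_neg hb, if_neg hb]
      rw [h8, ← Finset.sum_filter, Finset.sum_const, nsmul_eq_mul] at h7
      rcases mul_eq_zero.1 h7 with h9 | h9
      · exfalso
        have h10 : (Finset.univ.filter fun b : G => b ∈ B).card = 0 := by exact_mod_cast h9
        rw [Finset.card_eq_zero] at h10
        have h11 : (1 : G) ∈ Finset.univ.filter fun b : G => b ∈ B := by
          simp [B.one_mem]
        rw [h10] at h11
        exact absurd h11 (Finset.notMem_empty _)
      · exact h9
    rw [h3]
    simp)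
  have hr0 : r = 0 := by
    have : (0 : ℤ) = r := hr
    exact_mod_cast this.symm
  subst hr0
  have h1 := hr' hT
  have h2 : eig (augRep B hB) H (fun _ => 1) = ⊥ := by
    rw [← Submodule.rank_eq_zero (R := ℂ)]
    exact_mod_cast h1
  refine commute_of_le hC ?_
  -- the vector
  let n : ℂ := (Nat.card B : ℂ)
  have hn : n ≠ 0 := by
    show (Nat.card B : ℂ) ≠ 0
    exact_mod_cast Nat.card_pos.ne'
  have hcard : ∀ z : ℂ, ∑ b : G, (if b ∈ B then z else 0) = n * z := by
    intro z
    rw [← Finset.sum_filter, Finset.sum_const, nsmul_eq_mul]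
    congr 1
    show _ = (Nat.card B : ℂ)
    rw [Nat.card_eq_fintype_card, Fintype.card_subtype]
  let e : G → ℂ := fun x => if x ∈ H then 1 else 0
  let av : G → ℂ := fun x => n⁻¹ * ∑ b : G, (if b ∈ B then e (b * x) else 0)
  have hav : ∀ b ∈ B, ∀ x, av (b * x) = av x := by
    intro b hb x
    show n⁻¹ * _ = n⁻¹ * _
    congr 1
    refine Fintype.sum_equiv (Equiv.mulRight b) _ _ fun b' => ?_
    rw [Equiv.coe_mulRight]
    by_cases hb' : b' ∈ B
    · rw [if_pos hb', if_pos (B.mul_mem hb' hb), mul_assoc]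
    · rw [if_neg hb', if_neg (fun h => hb' ((B.mul_mem_cancel_right hb).1 h))]
  have hf : (fun x => e x - av x) ∈ aug B := by
    intro x
    have h3 : ∑ b : G, (if b ∈ B then (e (b * x) - av (b * x)) else 0) =
        ∑ b : G, (if b ∈ B then e (b * x) else 0) - ∑ b : G, (if b ∈ B then av x else 0) := by
      rw [← Finset.sum_sub_distrib]
      refine Finset.sum_congr rfl fun b _ => ?_
      by_cases hb : b ∈ B
      · rw [if_pos hb, if_pos hb, if_pos hb, hav b hb]
      · rw [if_neg hb, if_neg hb, if_neg hb, sub_zero]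
    show ∑ b : G, (if b ∈ B then (e (b * x) - av (b * x)) else 0) = 0
    rw [h3, hcard]
    show _ - n * (n⁻¹ * _) = 0
    rw [← mul_assoc, mul_inv_cancel₀ hn, one_mul, sub_self]
  have he : ∀ h ∈ H, ∀ x, e (h⁻¹ * x) = e x := by
    intro h hh x
    show (if h⁻¹ * x ∈ H then (1 : ℂ) else 0) = if x ∈ H then 1 else 0
    by_cases hx : x ∈ H
    · rw [if_pos hx, if_pos (H.mul_mem (H.inv_mem hh) hx)]
    · rw [if_neg hx, if_neg (fun h' => hx ((H.mul_mem_cancel_left (H.inv_mem hh)).1 h'))]
  have hinv : (⟨_, hf⟩ : aug B) ∈ eig (augRep B hB) H (fun _ => 1) := by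
    intro h hh
    rw [one_smul]
    ext x
    rw [augRep_apply]
    show e (h⁻¹ * x) - av (h⁻¹ * x) = e x - av x
    rw [he h hh]
    congr 1
    show n⁻¹ * _ = n⁻¹ * _
    congr 1
    refine Fintype.sum_equiv (MulAut.conj h).toEquiv _ _ fun b => ?_
    have e1 : (MulAut.conj h).toEquiv b = h * b * h⁻¹ := rfl
    rw [e1]
    by_cases hb : b ∈ B
    · rw [if_pos hb, if_pos (hB.conj_mem b hb h)]
      have e2 : h * b * h⁻¹ * x = (h⁻¹)⁻¹ * (b * (h⁻¹ * x)) := by group
      rw [e2, he _ (H.inv_mem hh)]
    · rw [if_neg hb, if_neg]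
      intro h'
      apply hb
      have := hB.conj_mem _ h' h⁻¹
      have e : h⁻¹ * (h * b * h⁻¹) * h⁻¹⁻¹ = b := by group
      rwa [e] at this
  rw [h2, Submodule.mem_bot] at hinv
  have h3 : e 1 - av 1 = 0 := congrArg (fun v : aug B => (v : G → ℂ) 1) hinv
  have h4 : e 1 = 1 := if_pos H.one_mem
  have h5 : ∑ b : G, (if b ∈ B then e (b * 1) else 0) = ∑ b : G, (if b ∈ B then (1 : ℂ) else 0) := by
    rw [hcard, mul_one]
    have h6 : n⁻¹ * ∑ b : G, (if b ∈ B then e (b * 1) else 0) = 1 := by
      rw [h4] at h3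
      exact (sub_eq_zero.1 h3).symm
    rw [inv_mul_eq_iff_eq_mul₀ hn, mul_one] at h6
    exact h6
  have h5' : ((∑ b : G, (if b ∈ B then (if b ∈ H then (1 : ℝ) else 0) else 0) : ℝ) : ℂ) =
      ((∑ b : G, (if b ∈ B then (1 : ℝ) else 0) : ℝ) : ℂ) := by
    have h6 : ∀ b : G, (((if b ∈ B then (if b ∈ H then (1 : ℝ) else 0) else 0) : ℝ) : ℂ) =
        if b ∈ B then e (b * 1) else 0 := by
      intro b
      show _ = if b ∈ B then (if b * 1 ∈ H then (1 : ℂ) else 0) else 0
      rw [mul_one]
      split_ifs <;> simp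
    have h7 : ∀ b : G, (((if b ∈ B then (1 : ℝ) else 0) : ℝ) : ℂ) =
        if b ∈ B then 1 else 0 := by
      intro b
      split_ifs <;> simp
    rw [Complex.ofReal_sum, Complex.ofReal_sum, Finset.sum_congr rfl fun b _ => h6 b,
      Finset.sum_congr rfl fun b _ => h7 b]
    exact h5
  have h6 : ∑ b : G, (if b ∈ B then (if b ∈ H then (1 : ℝ) else 0) else 0) =
      ∑ b : G, (if b ∈ B then (1 : ℝ) else 0) := by exact_mod_cast h5'
  intro b hb
  by_contra hbH
  refine absurd h6 (ne_of_lt (Finset.sum_lt_sum (fun b _ => ?_) ⟨b, Finset.mem_univ _, ?_⟩))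
  · split_ifs <;> norm_num
  · rw [if_pos hb, if_neg hbH, if_pos hb]
    exact one_pos

end Pool.Agent.ConjProd
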