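import Pool.Agent.ParityOdd.Defs

/-!
# Products of complex conjugations: definitions

`G` is the Galois group of a finite Galois extension `F` of a totally real field `k₀`. The complex
conjugations of `F` form a set `C`. The field of a subgroup `M` is totally real if and only if
`C ⊆ M`, it has a real place if and only if `M` contains an element of `C`, and it is a CM field,
with the totally real subfield of a subgroup `D`, if and only if `C ⊆ D`, `M` has index two in `D`,
and `M` contains no element of `C`.
-/

namespace Pool.Agent.ConjProd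

open ParityOdd

variable {G : Type} [Group G] [Fintype G]

/-- `C` is a nonempty set of elements of square one, closed under conjugation. -/
structure Conjugations (C : Set G) : Prop where
  nonempty : C.Nonempty
  sq : ∀ c ∈ C, c * c = 1
  conj : ∀ c ∈ C, ∀ g, g * c * g⁻¹ ∈ C

/-- The products of two elements of `C` commute with each other. -/
def ProductsCommute (C : Set G) : Prop :=
  ∀ a ∈ C, ∀ b ∈ C, ∀ c ∈ C, ∀ d ∈ C, (a * b) * (c * d) = (c * d) * (a * b)

/-- The products of two elements of `C` commute with each other modulo the normal core of `H`, i.e.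
on the Galois closure of the field of `H`. -/
def CommuteOn (C : Set G) (H : Subgroup G) : Prop :=
  ∀ a ∈ C, ∀ b ∈ C, ∀ c ∈ C, ∀ d ∈ C, (a * b) * (c * d) * (a * b)⁻¹ * (c * d)⁻¹ ∈ H.normalCore

/-- Linear characters of totally real fields. -/
def realLin (C : Set G) : Set (Subgroup G × (G → ℂ)) :=
  {p | C ⊆ p.1 ∧ IsLin p.1 p.2}

/-- Quadratic (or trivial) characters of totally real fields. -/
def realQuad (C : Set G) : Set (Subgroup G × (G → ℂ)) :=
  {p | C ⊆ p.1 ∧ IsQuad p.1 p.2}

/-- Linear characters of CM fields. -/
def cmLin (C : Set G) : Set (Subgroup G × (G → ℂ)) :=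
  {p | (∃ D : Subgroup G, C ⊆ D ∧ p.1 ≤ D ∧ p.1.relIndex D = 2) ∧ (∀ c ∈ C, c ∉ p.1) ∧
    IsLin p.1 p.2}

/-- Anticyclotomic characters of CM fields: complex conjugations invert the character. -/
def cmAnti (C : Set G) : Set (Subgroup G × (G → ℂ)) :=
  {p | p ∈ cmLin C ∧ ∀ c ∈ C, ∀ u ∈ p.1, p.2 (c * u * c⁻¹) = (p.2 u)⁻¹}

/-- The induced characters. -/
def inds (S : Set (Subgroup G × (G → ℂ))) : Set (G → ℂ) :=
  {f | ∃ p ∈ S, f = Ind p.1 p.2}

section Rep

variable {V : Type} [AddCommGroup V] [Module ℂ V]

/-- The subspace on which the subgroup `M` acts by `c`. -/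
def eig (ρ : Representation ℂ G V) (M : Subgroup G) (c : G → ℂ) : Submodule ℂ V where
  carrier := {v | ∀ g ∈ M, ρ g v = c g • v}
  add_mem' := by
    intro v w hv hw g hg
    rw [map_add, hv g hg, hw g hg, smul_add]
  zero_mem' := by
    intro g _
    rw [map_zero, smul_zero]
  smul_mem' := by
    intro a v hv g hg
    rw [map_smul, hv g hg, smul_comm]

/-- The order is a natural number, and if it belongs to `T`, it is the multiplicity of the
character in the representation. -/
def Formula (T : Set ℕ) (ρ : Representation ℂ G V) (ord : (G → ℂ) → ℤ)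
    (p : Subgroup G × (G → ℂ)) : Prop :=
  ∃ r : ℕ, ord (Ind p.1 p.2) = r ∧ (r ∈ T → Module.rank ℂ (eig ρ p.1 p.2) = r)

end Rep

/-- The field of `H` is allowed with the character `θ`: some complex conjugation normalises `H` and
inverts `θ`, or `S` contains the linear characters of CM fields and `θ` is quadratic, or `S`
contains the linear characters of totally real fields and of CM fields. -/
def Allowed (C : Set G) (S : Set (Subgroup G × (G → ℂ))) (p : Subgroup G × (G → ℂ)) : Prop :=
  IsLin p.1 p.2 ∧
    ((∃ c ∈ C, ∀ h ∈ p.1, c * h * c⁻¹ ∈ p.1 ∧ p.2 (c * h * c⁻¹) = (p.2 h)⁻¹) ∨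
      (cmLin C ⊆ S ∧ IsQuad p.1 p.2) ∨ realLin C ∪ cmLin C ⊆ S)

/-- The formula for the elements of `S` implies the formula for `p`, for all representations and
all orders which are additive on the sums of induced characters in `inds S`. -/
def Transfer (T : Set ℕ) (S : Set (Subgroup G × (G → ℂ))) (p : Subgroup G × (G → ℂ)) : Prop :=
  ∀ (V : Type) [AddCommGroup V] [Module ℂ V] (ρ : Representation ℂ G V) (ord : (G → ℂ) → ℤ),
    (∀ f ∈ AddSubmonoid.closure (inds S), ∀ g ∈ AddSubmonoid.closure (inds S),
      ord (f + g) = ord f + ord g) →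
    (∀ q ∈ S, Formula T ρ ord q) → Formula T ρ ord p

end Pool.Agent.ConjProd
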