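import Pool.Agent.ParityOdd.Fourier
import Pool.Agent.ConjProd.Defs

/-!
# The dual of an abelian normal subgroup
-/

set_option linter.unusedSectionVars false

namespace Pool.Agent.ConjProd

open ParityOdd
open scoped Classical

variable {G : Type} [Group G] [Fintype G]

/-- The sum of the values of a linear character. -/
theorem sum_lin {M : Subgroup G} {l : G → ℂ} (hl : IsLin M l) :
    (∑ x : G, if x ∈ M then l x else 0) = if (∀ x ∈ M, l x = 1) then (Nat.card M : ℂ) else 0 := by
  split_ifs with h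
  · have h1 : ∀ x : G, (if x ∈ M then l x else 0) = if x ∈ M then (1 : ℂ) else 0 := by
      intro x
      by_cases hx : x ∈ M
      · rw [if_pos hx, if_pos hx, h x hx]
      · rw [if_neg hx, if_neg hx]
    rw [Finset.sum_congr rfl fun x _ => h1 x, Finset.sum_boole, Nat.card_eq_fintype_card,
      Fintype.card_subtype]
  · push Not at h
    obtain ⟨y, hy, hy1⟩ := h
    have h2 : (∑ x : G, if x ∈ M then l x else 0) =
        l y * ∑ x : G, if x ∈ M then l x else 0 := by
      rw [Finset.mul_sum]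
      refine (Fintype.sum_equiv (Equiv.mulLeft y) _ _ fun x => ?_).symm
      rw [Equiv.coe_mulLeft]
      by_cases hx : x ∈ M
      · rw [if_pos hx, if_pos (M.mul_mem hy hx), hl.mul hy hx]
      · rw [if_neg hx, if_neg (fun h => hx ((M.mul_mem_cancel_left hy).1 h)), mul_zero]
    have h3 : (1 - l y) * ∑ x : G, (if x ∈ M then l x else 0) = 0 := by
      rw [sub_mul, one_mul, ← h2, sub_self]
    rcases mul_eq_zero.1 h3 with h4 | h4
    · exact absurd (sub_eq_zero.1 h4).symm hy1
    · exact h4

/-- The characters of an abelian normal subgroup. -/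
theorem exists_dual (A : Subgroup G) (hn : A.Normal) (hc : ∀ x ∈ A, ∀ y ∈ A, x * y = y * x) :
    ∃ (X : Type) (_ : Fintype X) (_ : MulAction G X) (ev : X → G → ℂ),
      (∀ ψ, IsLin A (ev ψ)) ∧ (∀ ψ ψ', (∀ x ∈ A, ev ψ x = ev ψ' x) → ψ = ψ') ∧
      (∀ (g : G) ψ, ∀ x ∈ A, ev (g • ψ) x = ev ψ (g⁻¹ * x * g)) ∧
      ∀ x ∈ A, ∑ ψ, ev ψ x = if x = 1 then (Nat.card A : ℂ) else 0 := by
  letI : CommGroup A :=
    { (inferInstance : Group A) with mul_comm := fun x y => Subtype.ext (hc x x.2 y y.2) }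
  let cj : G → Additive A →+ Additive A := fun g =>
    MonoidHom.toAdditive (MulAut.conjNormal g).toMonoidHom
  have hcj : ∀ (g : G) (a : Additive A), (((cj g a).toMul : A) : G) = g * (a.toMul : A) * g⁻¹ :=
    fun g a => MulAut.conjNormal_apply g a.toMul
  letI act : MulAction G (AddChar (Additive A) ℂ) :=
    { smul := fun g ψ => ψ.compAddMonoidHom (cj g⁻¹)
      one_smul := fun ψ => by
        ext a
        show ψ (cj (1 : G)⁻¹ a) = ψ a
        congr 1
        apply Additive.toMul.injective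
        apply Subtype.ext
        rw [hcj]
        simp
      mul_smul := fun g g' ψ => by
        ext a
        show ψ (cj (g * g')⁻¹ a) = ψ (cj g'⁻¹ (cj g⁻¹ a))
        congr 1
        apply Additive.toMul.injective
        apply Subtype.ext
        rw [hcj, hcj, hcj]
        group }
  let ev : AddChar (Additive A) ℂ → G → ℂ := fun ψ x =>
    if h : x ∈ A then ψ (Additive.ofMul ⟨x, h⟩) else 0
  have hev : ∀ ψ x (h : x ∈ A), ev ψ x = ψ (Additive.ofMul ⟨x, h⟩) := fun ψ x h => dif_pos h
  refine ⟨AddChar (Additive A) ℂ, inferInstance, act, ev, fun ψ => ⟨?_, fun x hx y hy => ?_⟩,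
    fun ψ ψ' h => ?_, fun g ψ x hx => ?_, fun x hx => ?_⟩
  · rw [hev ψ 1 A.one_mem]
    exact AddChar.map_zero_eq_one ψ
  · rw [hev ψ _ (A.mul_mem hx hy), hev ψ x hx, hev ψ y hy, ← AddChar.map_add_eq_mul]
    rfl
  · ext a
    have h1 := h (a.toMul : A) (a.toMul : A).2
    rw [hev _ _ (a.toMul : A).2, hev _ _ (a.toMul : A).2] at h1
    exact h1
  · have hx' : g⁻¹ * x * g ∈ A := by
      have := hn.conj_mem x hx g⁻¹
      rwa [inv_inv] at this
    rw [hev _ x hx, hev _ _ hx']
    show ψ (cj g⁻¹ (Additive.ofMul ⟨x, hx⟩)) = _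
    congr 1
    apply Additive.toMul.injective
    apply Subtype.ext
    rw [hcj, inv_inv]
    rfl
  · have h1 : ∀ ψ : AddChar (Additive A) ℂ, ev ψ x = ψ (Additive.ofMul ⟨x, hx⟩) :=
      fun ψ => hev ψ x hx
    rw [Finset.sum_congr rfl fun ψ _ => h1 ψ, AddChar.sum_apply_eq_ite]
    have h2 : (Additive.ofMul (⟨x, hx⟩ : A) = 0) ↔ x = 1 := by
      constructor
      · intro h
        exact congrArg Subtype.val (Additive.ofMul.injective h)
      · intro h
        apply Additive.toMul.injective
        exact Subtype.ext h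
    by_cases hx1 : x = 1
    · rw [if_pos (h2.2 hx1), if_pos hx1, ← Nat.card_eq_fintype_card]
      rfl
    · rw [if_neg (fun h => hx1 (h2.1 h)), if_neg hx1]

/-- Sums of families with orbit sums in a submonoid. -/
theorem sum_mem_of_orbits' {Γ X A : Type*} [Group Γ] [MulAction Γ X] [Fintype X]
    [AddCommMonoid A] (N : AddSubmonoid A) (a : X → A)
    (h : ∀ x0 : X, ∑ x ∈ Finset.univ.filter (fun x => x ∈ MulAction.orbit Γ x0), a x ∈ N) :
    ∑ x : X, a x ∈ N := by
  rw [← Finset.sum_fiberwise Finset.univ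
    (fun x => (Quotient.mk (MulAction.orbitRel Γ X) x))]
  refine N.sum_mem fun ω _ => ?_
  obtain ⟨x0, rfl⟩ := Quotient.exists_rep ω
  convert h x0 using 2
  ext x
  simp only [Finset.mem_filter, Finset.mem_univ, true_and]
  rw [Quotient.eq]
  exact MulAction.orbitRel_apply

end Pool.Agent.ConjProd
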