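import Pool.Agent.ParityOdd.Layer
import Pool.Agent.ConjProd.Dual

/-!
# Induced characters and an abelian normal subgroup

A character induced from a linear character of `H` is a sum of characters induced from linear
characters of subgroups containing the abelian normal subgroup `A`.
-/

set_option linter.unusedSectionVars false

namespace Pool.Agent.ConjProd

open ParityOdd
open scoped Classical

variable {G : Type} [Group G] [Fintype G]

/-- The order of the product of a subgroup and a normal subgroup. -/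
private theorem card_sup (H A : Subgroup G) (hn : A.Normal) :
    Nat.card (H ⊔ A : Subgroup G) * Nat.card (H ⊓ A : Subgroup G) =
      Nat.card H * Nat.card A := by
  have h1 := Subgroup.relIndex_mul_relIndex ⊥ A (H ⊔ A) bot_le le_sup_right
  have h2 := Subgroup.relIndex_mul_relIndex ⊥ (H ⊓ A) H bot_le inf_le_left
  rw [Subgroup.relIndex_sup_right, Subgroup.relIndex_bot_left, Subgroup.relIndex_bot_left] at h1
  rw [Subgroup.inf_relIndex_left, Subgroup.relIndex_bot_left, Subgroup.relIndex_bot_left] at h2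
  rw [← h1, ← h2]
  ring

/-- The sum of the values of the good characters. -/
private theorem good_sum {X : Type} [Fintype X] {A H : Subgroup G} {ev : X → G → ℂ} {θ : G → ℂ}
    (hθ : IsLin H θ) (hev : ∀ ψ, IsLin A (ev ψ))
    (hsum : ∀ x ∈ A, ∑ ψ, ev ψ x = if x = 1 then (Nat.card A : ℂ) else 0) {z : G} (hz : z ∈ A) :
    (Nat.card (H ⊓ A : Subgroup G) : ℂ) *
        ∑ ψ, (if (∀ w ∈ H, w ∈ A → ev ψ w = θ w) then ev ψ z else 0) =
      (Nat.card A : ℂ) * if z ∈ H then θ z else 0 := by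
  have h1 : ∀ ψ, (Nat.card (H ⊓ A : Subgroup G) : ℂ) *
      (if (∀ w ∈ H, w ∈ A → ev ψ w = θ w) then ev ψ z else 0) =
      ∑ w : G, if w ∈ H ⊓ A then θ w * ev ψ (w⁻¹ * z) else 0 := by
    intro ψ
    have hl : IsLin (H ⊓ A) (fun w => θ w * ev ψ w⁻¹) := by
      refine ⟨?_, fun x hx y hy => ?_⟩
      · show θ 1 * ev ψ (1 : G)⁻¹ = 1
        rw [hθ.one, inv_one, (hev ψ).one, mul_one]
      · show θ (x * y) * ev ψ (x * y)⁻¹ = (θ x * ev ψ x⁻¹) * (θ y * ev ψ y⁻¹)
        rw [hθ.mul hx.1 hy.1, mul_inv_rev, (hev ψ).mul (A.inv_mem hy.2) (A.inv_mem hx.2)]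
        ring
    have h2 := sum_lin hl
    have h3 : (∀ x ∈ H ⊓ A, θ x * ev ψ x⁻¹ = 1) ↔ (∀ w ∈ H, w ∈ A → ev ψ w = θ w) := by
      constructor
      · intro h w hw hwA
        have h4 := h w ⟨hw, hwA⟩
        rw [(hev ψ).inv hwA] at h4
        have h5 := (hev ψ).ne_zero hwA
        field_simp at h4
        exact h4.symm
      · rintro h x ⟨hx, hxA⟩
        rw [(hev ψ).inv hxA, h x hx hxA]
        exact mul_inv_cancel₀ (hθ.ne_zero hx)
    have h4 : (∑ w : G, if w ∈ H ⊓ A then θ w * ev ψ (w⁻¹ * z) else 0) =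
        (∑ w : G, if w ∈ H ⊓ A then θ w * ev ψ w⁻¹ else 0) * ev ψ z := by
      rw [Finset.sum_mul]
      refine Finset.sum_congr rfl fun w _ => ?_
      by_cases hw : w ∈ H ⊓ A
      · rw [if_pos hw, if_pos hw, (hev ψ).mul (A.inv_mem hw.2) hz, mul_assoc]
      · rw [if_neg hw, if_neg hw, zero_mul]
    rw [h4, h2]
    by_cases h5 : (∀ w ∈ H, w ∈ A → ev ψ w = θ w)
    · rw [if_pos h5, if_pos (h3.2 h5)]
    · rw [if_neg h5, if_neg (fun h => h5 (h3.1 h)), mul_zero, zero_mul]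
  rw [Finset.mul_sum, Finset.sum_congr rfl fun ψ _ => h1 ψ, Finset.sum_comm]
  have h6 : ∀ w : G, (∑ ψ, if w ∈ H ⊓ A then θ w * ev ψ (w⁻¹ * z) else 0) =
      if w = z then (if z ∈ H then θ z * (Nat.card A : ℂ) else 0) else 0 := by
    intro w
    by_cases hw : w ∈ H ⊓ A
    · have hwH : w ∈ H := hw.1
      have h7 : (∑ ψ, if w ∈ H ⊓ A then θ w * ev ψ (w⁻¹ * z) else 0) =
          θ w * ∑ ψ, ev ψ (w⁻¹ * z) := by
        rw [Finset.mul_sum]
        exact Finset.sum_congr rfl fun ψ _ => if_pos hw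
      rw [h7, hsum _ (A.mul_mem (A.inv_mem hw.2) hz)]
      by_cases hwz : w = z
      · subst hwz
        rw [inv_mul_cancel, if_pos rfl, if_pos rfl, if_pos hwH]
      · rw [if_neg hwz, if_neg (fun h => hwz (inv_mul_eq_one.1 h)), mul_zero]
    · have h7 : (∑ ψ : X, if w ∈ H ⊓ A then θ w * ev ψ (w⁻¹ * z) else 0) = 0 :=
        Finset.sum_eq_zero fun ψ _ => if_neg hw
      rw [h7]
      by_cases hwz : w = z
      · subst hwz
        have hwH : w ∉ H := fun h => hw ⟨h, hz⟩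
        rw [if_pos rfl, if_neg hwH]
      · rw [if_neg hwz]
  rw [Finset.sum_congr rfl fun w _ => h6 w, Finset.sum_ite_eq' Finset.univ z]
  simp only [Finset.mem_univ, if_true]
  split_ifs
  · ring
  · ring

/-- **Decomposition.** A character induced from a linear character of `H` is a sum of characters
induced from linear characters of subgroups containing the abelian normal subgroup `A`. -/
theorem decomp (A : Subgroup G) (hn : A.Normal) (hc : ∀ x ∈ A, ∀ y ∈ A, x * y = y * x)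
    (H : Subgroup G) (θ : G → ℂ) (hθ : IsLin H θ) (N : AddSubmonoid (G → ℂ))
    (hN : ∀ (M : Subgroup G) (χ : G → ℂ), A ≤ M → M ≤ H ⊔ A → IsLin M χ →
      (∀ x ∈ H, x ∈ M → χ x = θ x) →
      (∀ g ∈ H ⊔ A, (∀ a ∈ A, χ (g * a * g⁻¹) = χ a) → g ∈ M) → Ind M χ ∈ N) :
    Ind H θ ∈ N := by
  obtain ⟨X, hXf, hXa, ev, hev, hext, hact, hsum⟩ := exists_dual A hn hc
  set K : Subgroup G := H ⊔ A with hKdef
  have hHK : H ≤ K := le_sup_left
  have hAK : A ≤ K := le_sup_right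
  have hdec : ∀ g ∈ K, ∃ x ∈ H, ∃ a ∈ A, x * a = g := fun g hg =>
    Subgroup.mem_sup_of_normal_right.1 hg
  -- conjugates of elements of `A`
  have hcjA : ∀ g : G, ∀ a ∈ A, g * a * g⁻¹ ∈ A := fun g a ha => hn.conj_mem a ha g
  have hcjA' : ∀ g : G, ∀ a ∈ A, g⁻¹ * a * g ∈ A := fun g a ha => by
    have := hn.conj_mem a ha g⁻¹
    rwa [inv_inv] at this
  let xx : G → G := fun g => if h : g ∈ K then Classical.choose (hdec g h) else 1
  let aa : G → G := fun g => (xx g)⁻¹ * g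
  have hxx : ∀ g ∈ K, xx g ∈ H ∧ aa g ∈ A := by
    intro g hg
    have h1 : xx g = Classical.choose (hdec g hg) := dif_pos hg
    obtain ⟨h2, a, ha, h3⟩ := Classical.choose_spec (hdec g hg)
    refine ⟨by rw [h1]; exact h2, ?_⟩
    have h4 : aa g = a := by
      show (xx g)⁻¹ * g = a
      rw [h1]
      exact inv_mul_eq_of_eq_mul h3.symm
    rw [h4]
    exact ha
  let good : X → Prop := fun ψ => ∀ w ∈ H, w ∈ A → ev ψ w = θ w
  let val : X → G → ℂ := fun ψ g => θ (xx g) * ev ψ (aa g)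
  have hval : ∀ ψ, good ψ → ∀ x ∈ H, ∀ a ∈ A, val ψ (x * a) = θ x * ev ψ a := by
    intro ψ hψ x hx a ha
    have hg : x * a ∈ K := K.mul_mem (hHK hx) (hAK ha)
    obtain ⟨h1, h2⟩ := hxx _ hg
    have e1 : x⁻¹ * xx (x * a) = a * (aa (x * a))⁻¹ := by
      show x⁻¹ * xx (x * a) = a * ((xx (x * a))⁻¹ * (x * a))⁻¹
      group
    have h3 : x⁻¹ * xx (x * a) ∈ H := H.mul_mem (H.inv_mem hx) h1
    have h4 : x⁻¹ * xx (x * a) ∈ A := by
      rw [e1]
      exact A.mul_mem ha (A.inv_mem h2)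
    have h5 := hψ _ h3 h4
    have h6 : θ (xx (x * a)) = θ x * θ (x⁻¹ * xx (x * a)) := by
      rw [← hθ.mul hx h3]
      congr 1
      group
    have h7 : ev ψ a = ev ψ (x⁻¹ * xx (x * a)) * ev ψ (aa (x * a)) := by
      rw [← (hev ψ).mul h4 h2, e1]
      congr 1
      group
    show θ (xx (x * a)) * ev ψ (aa (x * a)) = θ x * ev ψ a
    rw [h6, h7, ← h5]
    ring
  -- the action of `A` is trivial
  have hAfix : ∀ b ∈ A, ∀ ψ : X, b • ψ = ψ := by
    intro b hb ψ
    refine hext _ _ fun x hx => ?_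
    rw [hact b ψ x hx]
    congr 1
    rw [mul_assoc, hc x hx b hb]
    group
  have hfix_iff : ∀ x : G, ∀ a ∈ A, ∀ ψ : X, (x * a) • ψ = ψ ↔ x • ψ = ψ := by
    intro x a ha ψ
    rw [mul_smul, hAfix a ha]
  have hgoodH : ∀ y ∈ H, ∀ ψ, good ψ → good (y • ψ) := by
    intro y hy ψ hψ w hw hwA
    rw [hact y ψ w hwA, hψ _ (H.mul_mem (H.mul_mem (H.inv_mem hy) hw) hy) (hcjA' y w hwA)]
    exact hθ.conj_eq hy hw
  have hgoodK : ∀ k ∈ K, ∀ ψ, good ψ → good (k • ψ) := by
    intro k hk ψ hψ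
    obtain ⟨y, hy, b, hb, rfl⟩ := hdec k hk
    rw [mul_smul, hAfix b hb]
    exact hgoodH y hy ψ hψ
  have hgoodK' : ∀ k ∈ K, ∀ ψ, good (k • ψ) → good ψ := by
    intro k hk ψ hψ
    have := hgoodK k⁻¹ (K.inv_mem hk) _ hψ
    rwa [inv_smul_smul] at this
  have hinvar : ∀ (g : G) (ψ : X), g • ψ = ψ → ∀ b ∈ A, ev ψ (g⁻¹ * b * g) = ev ψ b := by
    intro g ψ h b hb
    rw [← hact g ψ b hb, h]
  -- the family
  let fam : X → G → ℂ := fun ψ g => if good ψ ∧ g ∈ K ∧ g • ψ = ψ then val ψ g else 0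
  have hfam1 : ∀ ψ g, good ψ → g ∈ K → g • ψ = ψ → fam ψ g = val ψ g := fun ψ g h1 h2 h3 =>
    if_pos ⟨h1, h2, h3⟩
  have hfam0 : ∀ ψ g, ¬ (good ψ ∧ g ∈ K ∧ g • ψ = ψ) → fam ψ g = 0 := fun ψ g h => if_neg h
  -- equivariance
  have hvalH : ∀ y ∈ H, ∀ ψ, good ψ → ∀ g ∈ K, val (y • ψ) (y * g * y⁻¹) = val ψ g := by
    intro y hy ψ hψ g hg
    obtain ⟨x, hx, a, ha, rfl⟩ := hdec g hg
    have e : y * (x * a) * y⁻¹ = (y * x * y⁻¹) * (y * a * y⁻¹) := by group
    rw [e, hval _ (hgoodH y hy ψ hψ) _ (H.mul_mem (H.mul_mem hy hx) (H.inv_mem hy)) _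
      (hcjA y a ha), hval ψ hψ x hx a ha, hact y ψ _ (hcjA y a ha)]
    have e2 : y⁻¹ * (y * a * y⁻¹) * y = a := by group
    have e3 := hθ.conj_eq (H.inv_mem hy) hx
    rw [inv_inv] at e3
    rw [e2, e3]
  have hvalA : ∀ b ∈ A, ∀ ψ, good ψ → ∀ g ∈ K, g • ψ = ψ →
      val ψ (b * g * b⁻¹) = val ψ g := by
    intro b hb ψ hψ g hg hgψ
    obtain ⟨x, hx, a, ha, rfl⟩ := hdec g hg
    have e : b * (x * a) * b⁻¹ = x * ((x⁻¹ * b * x) * a * b⁻¹) := by group
    have h1 := hcjA' x b hb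
    rw [e, hval ψ hψ x hx _ (A.mul_mem (A.mul_mem h1 ha) (A.inv_mem hb)), hval ψ hψ x hx a ha,
      (hev ψ).mul (A.mul_mem h1 ha) (A.inv_mem hb), (hev ψ).mul h1 ha,
      hinvar x ψ ((hfix_iff x a ha ψ).1 hgψ) b hb, (hev ψ).inv hb]
    have h2 := (hev ψ).ne_zero hb
    field_simp
  have hequiv : ∀ k ∈ K, ∀ ψ g, fam (k • ψ) g = fam ψ (k⁻¹ * g * k) := by
    intro k hk ψ g
    have hiff : (good (k • ψ) ∧ g ∈ K ∧ g • (k • ψ) = k • ψ) ↔
        (good ψ ∧ k⁻¹ * g * k ∈ K ∧ (k⁻¹ * g * k) • ψ = ψ) := by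
      refine and_congr ⟨hgoodK' k hk ψ, hgoodK k hk ψ⟩ (and_congr ⟨fun h => ?_, fun h => ?_⟩ ?_)
      · exact K.mul_mem (K.mul_mem (K.inv_mem hk) h) hk
      · have h1 := K.mul_mem (K.mul_mem hk h) (K.inv_mem hk)
        have e : k * (k⁻¹ * g * k) * k⁻¹ = g := by group
        rwa [e] at h1
      · rw [mul_smul, mul_smul, inv_smul_eq_iff]
    by_cases h : good (k • ψ) ∧ g ∈ K ∧ g • (k • ψ) = k • ψ
    · obtain ⟨h1, h2, h3⟩ := hiff.1 h
      rw [hfam1 _ _ h.1 h.2.1 h.2.2, hfam1 _ _ h1 h2 h3]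
      obtain ⟨y, hy, b, hb, rfl⟩ := hdec k hk
      have e1 : g = y * (b * ((y * b)⁻¹ * g * (y * b)) * b⁻¹) * y⁻¹ := by group
      have hbK : b * ((y * b)⁻¹ * g * (y * b)) * b⁻¹ ∈ K :=
        K.mul_mem (K.mul_mem (hAK hb) h2) (K.inv_mem (hAK hb))
      have e2 : (y * b) • ψ = y • ψ := by rw [mul_smul, hAfix b hb]
      rw [e2]
      conv_lhs => rw [e1]
      rw [hvalH y hy ψ h1 _ hbK, hvalA b hb ψ h1 _ h2 h3]
    · rw [hfam0 _ _ h, hfam0 _ _ (fun h' => h (hiff.2 h'))]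
  -- the average over `A`
  have hcA : (Nat.card A : ℂ) ≠ 0 := by exact_mod_cast Nat.card_pos.ne'
  have hcH : (Nat.card H : ℂ) ≠ 0 := by exact_mod_cast Nat.card_pos.ne'
  have hcI : (Nat.card (H ⊓ A : Subgroup G) : ℂ) ≠ 0 := by exact_mod_cast Nat.card_pos.ne'
  let F : G → ℂ := fun g => if g ∈ H then θ g else 0
  have hav : ∀ g ∈ K, (∑ b : G, if b ∈ A then F (b⁻¹ * g * b) else 0) =
      (Nat.card (H ⊓ A : Subgroup G) : ℂ) * ∑ ψ, fam ψ g := by
    intro g hg
    obtain ⟨x, hx, a, ha, rfl⟩ := hdec g hg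
    have hw : ∀ b ∈ A, x⁻¹ * b⁻¹ * x * a * b ∈ A := fun b hb =>
      A.mul_mem (A.mul_mem (hcjA' x _ (A.inv_mem hb)) ha) hb
    have h1 : ∀ b ∈ A, (Nat.card A : ℂ) * F (b⁻¹ * (x * a) * b) =
        (Nat.card (H ⊓ A : Subgroup G) : ℂ) * ∑ ψ, (if good ψ then
          θ x * (ev ψ a * (ev ψ (x⁻¹ * b⁻¹ * x) * ev ψ b)) else 0) := by
      intro b hb
      have e : b⁻¹ * (x * a) * b = x * (x⁻¹ * b⁻¹ * x * a * b) := by group
      have h2 : F (b⁻¹ * (x * a) * b) = θ x * if x⁻¹ * b⁻¹ * x * a * b ∈ H then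
          θ (x⁻¹ * b⁻¹ * x * a * b) else 0 := by
        show (if b⁻¹ * (x * a) * b ∈ H then θ (b⁻¹ * (x * a) * b) else 0) = _
        rw [e]
        by_cases h3 : x⁻¹ * b⁻¹ * x * a * b ∈ H
        · rw [if_pos h3, if_pos (H.mul_mem hx h3), hθ.mul hx h3]
        · rw [if_neg h3, if_neg (fun h => h3 ((H.mul_mem_cancel_left hx).1 h)), mul_zero]
      have h4 := good_sum (H := H) hθ hev hsum (hw b hb)
      rw [h2, mul_left_comm, ← h4, mul_left_comm, Finset.mul_sum]
      congr 1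
      refine Finset.sum_congr rfl fun ψ _ => ?_
      by_cases h5 : good ψ
      · rw [if_pos h5, if_pos h5, (hev ψ).mul (A.mul_mem (hcjA' x _ (A.inv_mem hb)) ha) hb,
          (hev ψ).mul (hcjA' x _ (A.inv_mem hb)) ha]
        ring
      · rw [if_neg h5, if_neg h5, mul_zero]
    have h6 : ∀ ψ, good ψ → (∑ b : G, if b ∈ A then
        θ x * (ev ψ a * (ev ψ (x⁻¹ * b⁻¹ * x) * ev ψ b)) else 0) =
        (Nat.card A : ℂ) * fam ψ (x * a) := by
      intro ψ hψ
      have hl : IsLin A (fun b => ev ψ (x⁻¹ * b⁻¹ * x) * ev ψ b) := by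
        refine ⟨?_, fun y hy z hz => ?_⟩
        · have e : x⁻¹ * (1 : G)⁻¹ * x = 1 := by group
          show ev ψ (x⁻¹ * (1 : G)⁻¹ * x) * ev ψ 1 = 1
          rw [e, (hev ψ).one, mul_one]
        · have e : x⁻¹ * (y * z)⁻¹ * x = (x⁻¹ * z⁻¹ * x) * (x⁻¹ * y⁻¹ * x) := by group
          show ev ψ (x⁻¹ * (y * z)⁻¹ * x) * ev ψ (y * z) =
            (ev ψ (x⁻¹ * y⁻¹ * x) * ev ψ y) * (ev ψ (x⁻¹ * z⁻¹ * x) * ev ψ z)
          rw [e, (hev ψ).mul (hcjA' x _ (A.inv_mem hz)) (hcjA' x _ (A.inv_mem hy)),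
            (hev ψ).mul hy hz]
          ring
      have h7 := sum_lin hl
      have h8 : (∑ b : G, if b ∈ A then
          θ x * (ev ψ a * (ev ψ (x⁻¹ * b⁻¹ * x) * ev ψ b)) else 0) =
          θ x * ev ψ a * ∑ b : G, if b ∈ A then ev ψ (x⁻¹ * b⁻¹ * x) * ev ψ b else 0 := by
        rw [Finset.mul_sum]
        refine Finset.sum_congr rfl fun b _ => ?_
        split_ifs
        · ring
        · rw [mul_zero]
      rw [h8, h7]
      have h9 : (∀ b ∈ A, ev ψ (x⁻¹ * b⁻¹ * x) * ev ψ b = 1) ↔ x • ψ = ψ := by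
        constructor
        · intro h
          refine hext _ _ fun b hb => ?_
          have h10 := h b hb
          have e : x⁻¹ * b⁻¹ * x = (x⁻¹ * b * x)⁻¹ := by group
          rw [e, (hev ψ).inv (hcjA' x b hb)] at h10
          rw [hact x ψ b hb]
          have h11 := (hev ψ).ne_zero (hcjA' x b hb)
          field_simp at h10
          exact h10.symm
        · intro h b hb
          rw [hinvar x ψ h _ (A.inv_mem hb), (hev ψ).inv hb,
            inv_mul_cancel₀ ((hev ψ).ne_zero hb)]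
      by_cases h10 : x • ψ = ψ
      · rw [if_pos (h9.2 h10), hfam1 ψ _ hψ hg ((hfix_iff x a ha ψ).2 h10),
          hval ψ hψ x hx a ha]
        ring
      · rw [if_neg (fun h => h10 (h9.1 h)), hfam0 ψ _ (fun h =>
          h10 ((hfix_iff x a ha ψ).1 h.2.2)), mul_zero, mul_zero]
    have h11 : (Nat.card A : ℂ) * (∑ b : G, if b ∈ A then F (b⁻¹ * (x * a) * b) else 0) =
        (Nat.card A : ℂ) * ((Nat.card (H ⊓ A : Subgroup G) : ℂ) * ∑ ψ, fam ψ (x * a)) := by
      have h12 : (Nat.card A : ℂ) * (∑ b : G, if b ∈ A then F (b⁻¹ * (x * a) * b) else 0) =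
          ∑ b : G, (Nat.card (H ⊓ A : Subgroup G) : ℂ) * ∑ ψ, (if good ψ then
          (if b ∈ A then θ x * (ev ψ a * (ev ψ (x⁻¹ * b⁻¹ * x) * ev ψ b)) else 0) else 0) := by
        rw [Finset.mul_sum]
        refine Finset.sum_congr rfl fun b _ => ?_
        by_cases hb : b ∈ A
        · rw [if_pos hb, h1 b hb]
          congr 1
          refine Finset.sum_congr rfl fun ψ _ => ?_
          rw [if_pos hb]
        · rw [if_neg hb, mul_zero]
          symm
          rw [Finset.sum_eq_zero fun ψ _ => ?_, mul_zero]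
          rw [if_neg hb]
          split_ifs <;> rfl
      rw [h12, ← Finset.mul_sum, Finset.sum_comm, mul_left_comm]
      congr 1
      rw [Finset.mul_sum]
      refine Finset.sum_congr rfl fun ψ _ => ?_
      by_cases h13 : good ψ
      · rw [← h6 ψ h13]
        exact Finset.sum_congr rfl fun b _ => if_pos h13
      · rw [hfam0 ψ _ (fun h => h13 h.1), mul_zero]
        exact Finset.sum_eq_zero fun b _ => if_neg h13
    exact mul_left_cancel₀ hcA h11
  -- the sum of the family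
  have hsumfam : ind K H θ = ∑ ψ, fam ψ := by
    funext g
    rw [Finset.sum_apply]
    by_cases hg : g ∈ K
    · have h1 : ind K H θ g = (Nat.card H : ℂ)⁻¹ * ∑ y : G, if y ∈ K then
          F (y⁻¹ * g * y) else 0 := by
        unfold ind
        congr 1
        refine Finset.sum_congr rfl fun y _ => ?_
        show _ = if y ∈ K then (if y⁻¹ * g * y ∈ H then θ (y⁻¹ * g * y) else 0) else 0
        by_cases hy : y ∈ K
        · rw [if_pos hy]
          by_cases hy2 : y⁻¹ * g * y ∈ H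
          · rw [if_pos ⟨hy, hy2⟩, if_pos hy2]
          · rw [if_neg (fun h => hy2 h.2), if_neg hy2]
        · rw [if_neg (fun h => hy h.1), if_neg hy]
      have hcount : ∀ (L : Subgroup G) (t : ℂ), (∑ b : G, if b ∈ L then t else 0) =
          (Nat.card L : ℂ) * t := by
        intro L t
        rw [← Finset.sum_filter, Finset.sum_const, nsmul_eq_mul, ← Fintype.card_subtype,
          Nat.card_eq_fintype_card]
      have h2 : (Nat.card A : ℂ) * ∑ y : G, (if y ∈ K then F (y⁻¹ * g * y) else 0) =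
          ∑ y : G, if y ∈ K then
            (∑ b : G, if b ∈ A then F (b⁻¹ * (y⁻¹ * g * y) * b) else 0) else 0 := by
        have h3 : ∀ b ∈ A, (∑ y : G, if y ∈ K then F (b⁻¹ * (y⁻¹ * g * y) * b) else 0) =
            ∑ y : G, if y ∈ K then F (y⁻¹ * g * y) else 0 := by
          intro b hb
          refine Fintype.sum_equiv (Equiv.mulRight b) _ _ fun y => ?_
          simp only [Equiv.coe_mulRight]
          have e : (y * b)⁻¹ * g * (y * b) = b⁻¹ * (y⁻¹ * g * y) * b := by group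
          have h4 : y * b ∈ K ↔ y ∈ K := K.mul_mem_cancel_right (hAK hb)
          rw [e]
          simp only [h4]
        have h5 : (∑ y : G, if y ∈ K then
            (∑ b : G, if b ∈ A then F (b⁻¹ * (y⁻¹ * g * y) * b) else 0) else 0) =
            ∑ b : G, if b ∈ A then (∑ y : G, if y ∈ K then F (b⁻¹ * (y⁻¹ * g * y) * b) else 0)
              else 0 := by
          have h6 : ∀ y : G, (if y ∈ K then
              (∑ b : G, if b ∈ A then F (b⁻¹ * (y⁻¹ * g * y) * b) else 0) else 0) =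
              ∑ b : G, if b ∈ A then (if y ∈ K then F (b⁻¹ * (y⁻¹ * g * y) * b) else 0)
                else 0 := by
            intro y
            by_cases hy : y ∈ K
            · rw [if_pos hy]
              exact Finset.sum_congr rfl fun b _ => by rw [if_pos hy]
            · rw [if_neg hy]
              symm
              refine Finset.sum_eq_zero fun b _ => ?_
              rw [if_neg hy]
              split_ifs <;> rfl
          rw [Finset.sum_congr rfl fun y _ => h6 y, Finset.sum_comm]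
          refine Finset.sum_congr rfl fun b _ => ?_
          by_cases hb : b ∈ A
          · simp only [if_pos hb]
          · simp only [if_neg hb]
            exact Finset.sum_const_zero
        rw [h5, ← hcount]
        refine Finset.sum_congr rfl fun b _ => ?_
        by_cases hb : b ∈ A
        · rw [if_pos hb, if_pos hb, h3 b hb]
        · rw [if_neg hb, if_neg hb]
      have h7 : (∑ y : G, if y ∈ K then
            (∑ b : G, if b ∈ A then F (b⁻¹ * (y⁻¹ * g * y) * b) else 0) else 0) =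
          (Nat.card K : ℂ) * ((Nat.card (H ⊓ A : Subgroup G) : ℂ) * ∑ ψ, fam ψ g) := by
        rw [← hcount]
        refine Finset.sum_congr rfl fun y _ => ?_
        by_cases hy : y ∈ K
        · rw [if_pos hy, if_pos hy, hav _ (K.mul_mem (K.mul_mem (K.inv_mem hy) hg) hy)]
          congr 1
          have h8 : ∀ ψ, fam ψ (y⁻¹ * g * y) = fam (y • ψ) g := fun ψ => (hequiv y hy ψ g).symm
          rw [Finset.sum_congr rfl fun ψ _ => h8 ψ]
          exact Fintype.sum_equiv (MulAction.toPerm y) _ _ fun ψ => rfl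
        · rw [if_neg hy, if_neg hy]
      have h9 : (Nat.card K : ℂ) * (Nat.card (H ⊓ A : Subgroup G) : ℂ) =
          (Nat.card H : ℂ) * (Nat.card A : ℂ) := by
        exact_mod_cast card_sup H A hn
      rw [h1, inv_mul_eq_iff_eq_mul₀ hcH]
      refine mul_left_cancel₀ hcA ?_
      rw [h2, h7, ← mul_assoc, h9]
      ring
    · rw [ind_off hHK θ hg]
      exact (Finset.sum_eq_zero fun ψ _ => hfam0 ψ g (fun h => hg h.2.1)).symm
  -- orbits
  have hAM : Ind H θ = Ind K (∑ ψ, fam ψ) := by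
    rw [← hsumfam, Ind_trans hHK]
  rw [hAM, ← ind_top, ← indHom_apply]
  show (∑ ψ, fam ψ) ∈ N.comap (indHom ⊤ K)
  refine sum_mem_of_orbits' (Γ := K) _ _ fun ψ0 => ?_
  rw [orbit_equiv fam (fun ψ g hg => hfam0 ψ g fun h => hg h.2.1)
    (fun ψ g hg => hfam0 ψ g fun h => hg h.2.2)
    (fun h ψ g => hequiv h h.2 ψ g) ψ0]
  show indHom ⊤ K _ ∈ N
  rw [indHom_apply, ind_top]
  have hmemst : ∀ z : G, z ∈ (MulAction.stabilizer K ψ0).map K.subtype ↔
      z ∈ K ∧ z • ψ0 = ψ0 := by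
    intro z
    constructor
    · rintro ⟨v, hv, rfl⟩
      exact ⟨v.2, hv⟩
    · rintro ⟨h, hz⟩
      exact ⟨⟨z, h⟩, hz, rfl⟩
  rw [Ind_trans (fun z hz => ((hmemst z).1 hz).1)]
  by_cases hg0 : good ψ0
  · refine hN _ _ (fun b hb => (hmemst b).2 ⟨hAK hb, hAfix b hb ψ0⟩)
      (fun z hz => ((hmemst z).1 hz).1) ⟨?_, ?_⟩ ?_ ?_
    · rw [hfam1 ψ0 1 hg0 K.one_mem (one_smul G ψ0)]
      have h1 := hval ψ0 hg0 1 H.one_mem 1 A.one_mem
      rw [mul_one, hθ.one, (hev ψ0).one, mul_one] at h1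
      exact h1
    · intro g hg g' hg'
      obtain ⟨hgK, hg1⟩ := (hmemst g).1 hg
      obtain ⟨hgK', hg1'⟩ := (hmemst g').1 hg'
      have h1 : (g * g') • ψ0 = ψ0 := by rw [mul_smul, hg1', hg1]
      rw [hfam1 ψ0 _ hg0 (K.mul_mem hgK hgK') h1, hfam1 ψ0 _ hg0 hgK hg1,
        hfam1 ψ0 _ hg0 hgK' hg1']
      obtain ⟨x, hx, a, ha, rfl⟩ := hdec g hgK
      obtain ⟨x', hx', a', ha', rfl⟩ := hdec g' hgK'
      have e : x * a * (x' * a') = (x * x') * ((x'⁻¹ * a * x') * a') := by group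
      rw [e, hval ψ0 hg0 _ (H.mul_mem hx hx') _ (A.mul_mem (hcjA' x' a ha) ha'),
        hval ψ0 hg0 x hx a ha, hval ψ0 hg0 x' hx' a' ha', hθ.mul hx hx',
        (hev ψ0).mul (hcjA' x' a ha) ha', hinvar x' ψ0 ((hfix_iff x' a' ha' ψ0).1 hg1') a ha]
      ring
    · intro x hx hxM
      obtain ⟨hxK, hx1⟩ := (hmemst x).1 hxM
      rw [hfam1 ψ0 x hg0 hxK hx1]
      have h1 := hval ψ0 hg0 x hx 1 A.one_mem
      rw [mul_one, (hev ψ0).one, mul_one] at h1
      exact h1
    · intro g hg h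
      refine (hmemst g).2 ⟨hg, ?_⟩
      have hA : ∀ a ∈ A, fam ψ0 a = ev ψ0 a := by
        intro a ha
        rw [hfam1 ψ0 a hg0 (hAK ha) (hAfix a ha ψ0)]
        have h1 := hval ψ0 hg0 1 H.one_mem a ha
        rw [one_mul, hθ.one, one_mul] at h1
        exact h1
      have h2 : g⁻¹ • ψ0 = ψ0 := by
        refine hext _ _ fun a ha => ?_
        have h3 := h a ha
        rw [hA a ha, hA _ (hcjA g a ha)] at h3
        rw [hact g⁻¹ ψ0 a ha, inv_inv]
        exact h3
      rw [← h2, smul_inv_smul, h2]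
  · have h1 : fam ψ0 = 0 := by
      funext g
      exact hfam0 ψ0 g fun h => hg0 h.1
    have h2 : Ind ((MulAction.stabilizer K ψ0).map K.subtype) (0 : G → ℂ) = 0 := by
      rw [← ind_top, ← indHom_apply, map_zero]
    rw [h1, h2]
    exact N.zero_mem

end Pool.Agent.ConjProd
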