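import Pool.Agent.ConjProd.Defs

/-!
# Products of complex conjugations: multiplicities

The dimension of the space on which a subgroup acts by a linear character depends linearly on the
induced character.
-/

set_option linter.unusedSectionVars false

namespace Pool.Agent.ConjProd

open ParityOdd
open scoped Classical

variable {G : Type} [Group G] [Fintype G]

section Finite

variable {W : Type} [AddCommGroup W] [Module ℂ W]

/-- the projection onto the space on which `M` acts by `c` -/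
noncomputable def proj (ρ : Representation ℂ G W) (M : Subgroup G) (c : G → ℂ) : W →ₗ[ℂ] W :=
  (Nat.card M : ℂ)⁻¹ • ∑ g : G, if g ∈ M then c g⁻¹ • ρ g else 0

theorem proj_apply (ρ : Representation ℂ G W) (M : Subgroup G) (c : G → ℂ) (v : W) :
    proj ρ M c v = (Nat.card M : ℂ)⁻¹ • ∑ g : G, if g ∈ M then c g⁻¹ • ρ g v else 0 := by
  unfold proj
  rw [LinearMap.smul_apply, LinearMap.sum_apply]
  congr 1
  refine Finset.sum_congr rfl fun g _ => ?_
  split_ifs
  · rw [LinearMap.smul_apply]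
  · rfl

theorem isProj (ρ : Representation ℂ G W) {M : Subgroup G} {c : G → ℂ} (hc : IsLin M c) :
    LinearMap.IsProj (eig ρ M c) (proj ρ M c) := by
  constructor
  · intro v h hh
    rw [proj_apply, map_smul, map_sum, smul_comm (c h)]
    refine congrArg (fun w : W => (Nat.card M : ℂ)⁻¹ • w) ?_
    rw [Finset.smul_sum]
    refine Fintype.sum_equiv (Equiv.mulLeft h) _ _ fun g => ?_
    change _ = c h • if h * g ∈ M then c (h * g)⁻¹ • ρ (h * g) v else 0
    by_cases hg : g ∈ M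
    · have h1 : h * g ∈ M := M.mul_mem hh hg
      have h2 : c g⁻¹ = c h * c (h * g)⁻¹ := by
        have h3 := hc.2 (h * g)⁻¹ (M.inv_mem h1) h hh
        have h4 : (h * g)⁻¹ * h = g⁻¹ := by group
        rw [h4] at h3
        rw [h3, mul_comm]
      rw [if_pos hg, if_pos h1, map_smul, h2, smul_smul, map_mul, Module.End.mul_apply]
    · have h1 : h * g ∉ M := fun h1 => hg ((M.mul_mem_cancel_left hh).1 h1)
      rw [if_neg hg, if_neg h1, map_zero, smul_zero]
  · intro v hv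
    rw [proj_apply]
    have h1 : ∀ g : G, (if g ∈ M then c g⁻¹ • ρ g v else 0) = if g ∈ M then v else 0 := by
      intro g
      split_ifs with hg
      · rw [hv g hg, smul_smul, ← hc.2 _ (M.inv_mem hg) _ hg, inv_mul_cancel, hc.1, one_smul]
      · rfl
    rw [Finset.sum_congr rfl fun g _ => h1 g, ← Finset.sum_filter, Finset.sum_const]
    have h2 : (Finset.univ.filter fun g : G => g ∈ M).card = Nat.card M := by
      rw [Nat.card_eq_fintype_card, Fintype.card_subtype]
    rw [h2, ← Nat.cast_smul_eq_nsmul ℂ, smul_smul, inv_mul_cancel₀, one_smul]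
    exact Nat.cast_ne_zero.2 Nat.card_pos.ne'

theorem finrank_eig [Module.Finite ℂ W] (ρ : Representation ℂ G W) {M : Subgroup G} {c : G → ℂ}
    (hc : IsLin M c) : (Module.finrank ℂ (eig ρ M c) : ℂ) =
      (Nat.card G : ℂ)⁻¹ * ∑ g : G, Ind M c g⁻¹ * LinearMap.trace ℂ W (ρ g) := by
  have h1 : LinearMap.trace ℂ W (proj ρ M c) = (Nat.card M : ℂ)⁻¹ *
      ∑ g : G, if g ∈ M then c g⁻¹ * LinearMap.trace ℂ W (ρ g) else 0 := by
    unfold proj
    rw [map_smul, map_sum, smul_eq_mul]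
    congr 1
    refine Finset.sum_congr rfl fun g _ => ?_
    split_ifs
    · rw [map_smul, smul_eq_mul]
    · exact map_zero _
  have htr : ∀ x h : G, LinearMap.trace ℂ W (ρ (x * h * x⁻¹)) = LinearMap.trace ℂ W (ρ h) := by
    intro x h
    rw [map_mul ρ, LinearMap.trace_mul_comm, ← map_mul ρ]
    congr 2
    group
  have h2 : ∀ x : G, ∑ g : G, (if x⁻¹ * g⁻¹ * x ∈ M then c (x⁻¹ * g⁻¹ * x) else 0) *
      LinearMap.trace ℂ W (ρ g) =
      ∑ g : G, if g ∈ M then c g⁻¹ * LinearMap.trace ℂ W (ρ g) else 0 := by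
    intro x
    refine (Fintype.sum_equiv (MulAut.conj x).toEquiv _ _ fun h => ?_).symm
    have h3 : x⁻¹ * (x * h * x⁻¹)⁻¹ * x = h⁻¹ := by group
    change _ = (if x⁻¹ * (x * h * x⁻¹)⁻¹ * x ∈ M then c (x⁻¹ * (x * h * x⁻¹)⁻¹ * x) else 0) *
      LinearMap.trace ℂ W (ρ (x * h * x⁻¹))
    rw [htr]
    simp only [h3]
    by_cases hh : h ∈ M
    · rw [if_pos hh, if_pos (M.inv_mem hh)]
    · rw [if_neg hh, if_neg fun h4 => hh (M.inv_mem_iff.1 h4), zero_mul]
  have h3 : ∑ g : G, Ind M c g⁻¹ * LinearMap.trace ℂ W (ρ g) =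
      (Nat.card G : ℂ) * LinearMap.trace ℂ W (proj ρ M c) := by
    have h4 : ∀ g : G, Ind M c g⁻¹ * LinearMap.trace ℂ W (ρ g) = (Nat.card M : ℂ)⁻¹ * ∑ x : G,
        (if x⁻¹ * g⁻¹ * x ∈ M then c (x⁻¹ * g⁻¹ * x) else 0) * LinearMap.trace ℂ W (ρ g) := by
      intro g
      unfold Ind
      rw [mul_assoc, Finset.sum_mul]
    rw [Finset.sum_congr rfl fun g _ => h4 g, ← Finset.mul_sum, Finset.sum_comm,
      Finset.sum_congr rfl fun x _ => h2 x, Finset.sum_const, h1, Finset.card_univ,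
      Nat.card_eq_fintype_card (α := G), nsmul_eq_mul]
    ring
  rw [h3, ← mul_assoc, inv_mul_cancel₀ (Nat.cast_ne_zero.2 Nat.card_pos.ne'), one_mul,
    (isProj ρ hc).trace]

theorem finrank_eig_sum [Module.Finite ℂ W] (ρ : Representation ℂ G W) {ι : Type} (s : Finset ι)
    (M : ι → Subgroup G) (c : ι → G → ℂ) (hc : ∀ i ∈ s, IsLin (M i) (c i)) {H : Subgroup G}
    {θ : G → ℂ} (hθ : IsLin H θ) (he : Ind H θ = ∑ i ∈ s, Ind (M i) (c i)) :
    Module.finrank ℂ (eig ρ H θ) = ∑ i ∈ s, Module.finrank ℂ (eig ρ (M i) (c i)) := by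
  have h1 : (Module.finrank ℂ (eig ρ H θ) : ℂ) =
      ((∑ i ∈ s, Module.finrank ℂ (eig ρ (M i) (c i)) : ℕ) : ℂ) := by
    rw [Nat.cast_sum, finrank_eig ρ hθ, Finset.sum_congr rfl fun i hi => finrank_eig ρ (hc i hi),
      ← Finset.mul_sum, Finset.sum_comm]
    congr 1
    refine Finset.sum_congr rfl fun g _ => ?_
    rw [he, Finset.sum_apply, Finset.sum_mul]
  exact_mod_cast h1

end Finite

section General

variable {V : Type} [AddCommGroup V] [Module ℂ V]

/-- restriction to a stable subspace -/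
def res (ρ : Representation ℂ G V) (W : Submodule ℂ V) (hW : ∀ g, ∀ w ∈ W, ρ g w ∈ W) :
    Representation ℂ G W where
  toFun g := (ρ g).restrict (hW g)
  map_one' := by
    ext w
    simp
  map_mul' g h := by
    ext w
    simp

theorem finrank_inf (ρ : Representation ℂ G V) (W : Submodule ℂ V)
    (hW : ∀ g, ∀ w ∈ W, ρ g w ∈ W) (M : Subgroup G) (c : G → ℂ) :
    Module.finrank ℂ (eig (res ρ W hW) M c) = Module.finrank ℂ (W ⊓ eig ρ M c : Submodule ℂ V) := by
  have h1 : eig (res ρ W hW) M c = (eig ρ M c).comap W.subtype := by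
    ext w
    constructor
    · intro hw g hg
      have := congrArg Subtype.val (hw g hg)
      exact this
    · intro hw g hg
      exact Subtype.ext (hw g hg)
  rw [h1, ← Submodule.finrank_map_subtype_eq, Submodule.map_comap_subtype]

theorem exists_stable (ρ : Representation ℂ G V) (U : Submodule ℂ V) [Module.Finite ℂ U] :
    ∃ W : Submodule ℂ V, U ≤ W ∧ (∀ g, ∀ w ∈ W, ρ g w ∈ W) ∧ Module.Finite ℂ W := by
  refine ⟨⨆ g : G, U.map (ρ g), ?_, ?_, ?_⟩
  · refine le_trans ?_ (le_iSup (fun g : G => U.map (ρ g)) 1)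
    rw [map_one]
    exact (Submodule.map_id U).ge
  · intro g w hw
    have h1 : (⨆ g : G, U.map (ρ g)) ≤ (⨆ g : G, U.map (ρ g)).comap (ρ g) := by
      refine iSup_le fun h => ?_
      rintro _ ⟨u, hu, rfl⟩
      refine (le_iSup (fun g : G => U.map (ρ g)) (g * h)) ⟨u, hu, ?_⟩
      rw [map_mul, Module.End.mul_apply]
    exact h1 hw
  · infer_instance

theorem rank_eig (ρ : Representation ℂ G V)
    {ι : Type} (s : Finset ι) (M : ι → Subgroup G) (c : ι → G → ℂ) (r : ι → ℕ)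
    (hc : ∀ i ∈ s, IsLin (M i) (c i)) {H : Subgroup G} {θ : G → ℂ} (hθ : IsLin H θ)
    (he : Ind H θ = ∑ i ∈ s, Ind (M i) (c i))
    (hr : ∀ i ∈ s, Module.rank ℂ (eig ρ (M i) (c i)) = r i) :
    Module.rank ℂ (eig ρ H θ) = ((∑ i ∈ s, r i : ℕ) : Cardinal) := by
  have hfin : ∀ i ∈ s, Module.Finite ℂ (eig ρ (M i) (c i)) := fun i hi =>
    Module.finite_of_rank_eq_nat (hr i hi)
  have hfr : ∀ i ∈ s, Module.finrank ℂ (eig ρ (M i) (c i)) = r i := fun i hi =>
    Module.finrank_eq_of_rank_eq (hr i hi)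
  have hkey : ∀ W : Submodule ℂ V, Module.Finite ℂ W → (∀ g, ∀ w ∈ W, ρ g w ∈ W) →
      (∀ i ∈ s, eig ρ (M i) (c i) ≤ W) →
      Module.finrank ℂ (W ⊓ eig ρ H θ : Submodule ℂ V) = ∑ i ∈ s, r i := by
    intro W hWf hW hle
    rw [← finrank_inf ρ W hW, finrank_eig_sum (res ρ W hW) s M c hc hθ he]
    refine Finset.sum_congr rfl fun i hi => ?_
    rw [finrank_inf ρ W hW, inf_eq_right.2 (hle i hi), hfr i hi]
  have hU : Module.Finite ℂ (⨆ i : s, eig ρ (M i) (c i) : Submodule ℂ V) := by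
    have : ∀ i : s, Module.Finite ℂ (eig ρ (M i) (c i)) := fun i => hfin i i.2
    infer_instance
  obtain ⟨W, hUW, hW, hWf⟩ := exists_stable ρ (⨆ i : s, eig ρ (M i) (c i))
  have hle : ∀ i ∈ s, eig ρ (M i) (c i) ≤ W := fun i hi =>
    (le_iSup (fun i : s => eig ρ (M i) (c i)) ⟨i, hi⟩).trans hUW
  have hEW : eig ρ H θ ≤ W := by
    intro v hv
    obtain ⟨W', hWW', hW', hWf'⟩ := exists_stable ρ (W ⊔ Submodule.span ℂ {v})
    have h1 : W ≤ W' := le_sup_left.trans hWW'
    have h2 : v ∈ W' := hWW' ((le_sup_right : _ ≤ W ⊔ Submodule.span ℂ {v})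
      (Submodule.mem_span_singleton_self v))
    have h3 : (W ⊓ eig ρ H θ : Submodule ℂ V) = W' ⊓ eig ρ H θ :=
      Submodule.eq_of_le_of_finrank_eq (inf_le_inf_right _ h1)
        ((hkey W hWf hW hle).trans (hkey W' hWf' hW' fun i hi => (hle i hi).trans h1).symm)
    have h4 : v ∈ (W' ⊓ eig ρ H θ : Submodule ℂ V) := ⟨h2, hv⟩
    rw [← h3] at h4
    exact h4.1
  have hEf : Module.Finite ℂ (eig ρ H θ) := Submodule.finiteDimensional_of_le hEW
  rw [← Module.finrank_eq_rank, ← hkey W hWf hW hle, inf_eq_right.2 hEW]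

end General

end Pool.Agent.ConjProd
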