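import Pool.Agent.ConjProd.Quot
import Pool.Agent.ConjProd.Mult
import Pool.Agent.ConjProd.Back

/-!
# The transfer of the formula
-/

set_option linter.unusedSectionVars false

namespace Pool.Agent.ConjProd

open ParityOdd

variable {G : Type} [Group G] [Fintype G] {C : Set G}

/-- Elements of the additive submonoid generated by a set are finite sums. -/
theorem closure_sum {S : Set (Subgroup G × (G → ℂ))} {f : G → ℂ}
    (hf : f ∈ AddSubmonoid.closure (inds S)) :
    ∃ (n : ℕ) (q : Fin n → Subgroup G × (G → ℂ)), (∀ i, q i ∈ S) ∧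
      f = ∑ i, Ind (q i).1 (q i).2 := by
  induction hf using AddSubmonoid.closure_induction with
  | mem f hf =>
    obtain ⟨p, hp, rfl⟩ := hf
    exact ⟨1, fun _ => p, fun _ => hp, by simp⟩
  | zero => exact ⟨0, Fin.elim0, fun i => i.elim0, by simp⟩
  | add f g _ _ hf hg =>
    obtain ⟨n, q, hq, rfl⟩ := hf
    obtain ⟨m, q', hq', rfl⟩ := hg
    refine ⟨n + m, Fin.append q q', fun i => ?_, ?_⟩
    · refine Fin.addCases (fun i => ?_) (fun i => ?_) i
      · rw [Fin.append_left]
        exact hq i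
      · rw [Fin.append_right]
        exact hq' i
    · rw [Fin.sum_univ_add]
      simp only [Fin.append_left, Fin.append_right]

theorem lin_of_mem {S : Set (Subgroup G × (G → ℂ))} (hS : S ⊆ realLin C ∪ cmLin C)
    {p : Subgroup G × (G → ℂ)} (hp : p ∈ S) : IsLin p.1 p.2 := by
  rcases hS hp with h | h
  · exact h.2
  · exact h.2.2

theorem transfer_of_mem {S : Set (Subgroup G × (G → ℂ))} (hS : S ⊆ realLin C ∪ cmLin C)
    {T : Set ℕ} (hT : ∀ n ∈ T, ∀ m ≤ n, m ∈ T) {p : Subgroup G × (G → ℂ)} (hp : IsLin p.1 p.2)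
    (h : Ind p.1 p.2 ∈ AddSubmonoid.closure (inds S)) : Transfer T S p := by
  intro V _ _ ρ ord hadd hF
  obtain ⟨n, q, hq, he⟩ := closure_sum h
  choose r hr hr' using fun i => hF (q i) (hq i)
  -- the order of a sum
  have hzero : ord 0 = 0 := by
    have h0 := hadd 0 (zero_mem _) 0 (zero_mem _)
    rw [add_zero] at h0
    omega
  have hsum : ∀ s : Finset (Fin n), ord (∑ i ∈ s, Ind (q i).1 (q i).2) = ((∑ i ∈ s, r i : ℕ) : ℤ) ∧
      ∑ i ∈ s, Ind (q i).1 (q i).2 ∈ AddSubmonoid.closure (inds S) := by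
    intro s
    induction s using Finset.cons_induction with
    | empty => exact ⟨by simpa using hzero, zero_mem _⟩
    | cons i s hi ih =>
      have h1 : Ind (q i).1 (q i).2 ∈ AddSubmonoid.closure (inds S) :=
        AddSubmonoid.subset_closure ⟨q i, hq i, rfl⟩
      rw [Finset.sum_cons, Finset.sum_cons]
      refine ⟨?_, add_mem h1 ih.2⟩
      rw [hadd _ h1 _ ih.2, ih.1, hr]
      push_cast
      rfl
  refine ⟨∑ i, r i, ?_, fun hrT => ?_⟩
  · rw [he]
    exact (hsum Finset.univ).1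
  · refine rank_eig ρ Finset.univ (fun i => (q i).1) (fun i => (q i).2) r
      (fun i _ => lin_of_mem hS (hq i)) hp he fun i hi => ?_
    exact hr' i (hT _ hrT _ (Finset.single_le_sum (fun j _ => Nat.zero_le _) hi))

/-- **Main theorem.** -/
theorem main (hC : Conjugations C) {T : Set ℕ} (h0 : 0 ∈ T) (hT : ∀ n ∈ T, ∀ m ≤ n, m ∈ T)
    {S : Set (Subgroup G × (G → ℂ))} (hS1 : realQuad C ∪ cmAnti C ⊆ S)
    (hS2 : S ⊆ realLin C ∪ cmLin C) {H : Subgroup G} (hH : Allowed C S (H, fun _ => 1)) :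
    [CommuteOn C H,
      Ind H (fun _ => 1) ∈ Submodule.span ℂ (inds S),
      ∀ p, Allowed C S p → H.normalCore ≤ p.1 → (∀ x ∈ H.normalCore, p.2 x = 1) →
        Ind p.1 p.2 ∈ AddSubmonoid.closure (inds S),
      Transfer T S (H, fun _ => 1),
      ∀ p, Allowed C S p → H.normalCore ≤ p.1 → (∀ x ∈ H.normalCore, p.2 x = 1) →
        Transfer T S p].TFAE := by
  tfae_have 1 → 3 := fun h p hp h1 h2 =>
    forward' hC (Subgroup.normalCore_normal H) h hS1 hp h1 h2
  tfae_have 3 → 2 := by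
    intro h
    have h1 := h _ hH (Subgroup.normalCore_le H) (fun _ _ => rfl)
    have h2 : AddSubmonoid.closure (inds S) ≤ (Submodule.span ℂ (inds S)).toAddSubmonoid :=
      (AddSubmonoid.closure_le).2 Submodule.subset_span
    exact h2 h1
  tfae_have 2 → 1 := fun h => back_span hC hS2 h
  tfae_have 3 → 5 := fun h p hp h1 h2 => transfer_of_mem hS2 hT hp.1 (h p hp h1 h2)
  tfae_have 5 → 4 := fun h => h _ hH (Subgroup.normalCore_le H) (fun _ _ => rfl)
  tfae_have 4 → 1 := fun h => back_transfer hC hS2 h0 h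
  tfae_finish

end Pool.Agent.ConjProd
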