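import Pool.Agent.ConjProd.Defs

/-!
# The group generated by the products of two complex conjugations
-/

set_option linter.unusedSectionVars false

namespace Pool.Agent.ConjProd

open ParityOdd

variable {G : Type} [Group G] [Fintype G] {C : Set G}

/-- The subgroup generated by the products of two complex conjugations. -/
def pairs (C : Set G) : Subgroup G := Subgroup.closure {x | ∃ a ∈ C, ∃ b ∈ C, x = a * b}

theorem mul_mem_pairs {a b : G} (ha : a ∈ C) (hb : b ∈ C) : a * b ∈ pairs C :=
  Subgroup.subset_closure ⟨a, ha, b, hb, rfl⟩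

theorem pairs_normal (hC : Conjugations C) : (pairs C).Normal := by
  constructor
  intro x hx g
  induction hx using Subgroup.closure_induction with
  | mem x hx =>
    obtain ⟨a, ha, b, hb, rfl⟩ := hx
    have : g * (a * b) * g⁻¹ = (g * a * g⁻¹) * (g * b * g⁻¹) := by group
    rw [this]
    exact mul_mem_pairs (hC.conj a ha g) (hC.conj b hb g)
  | one =>
    rw [mul_one, mul_inv_cancel]
    exact (pairs C).one_mem
  | mul x y _ _ hx hy =>
    have : g * (x * y) * g⁻¹ = (g * x * g⁻¹) * (g * y * g⁻¹) := by group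
    rw [this]
    exact (pairs C).mul_mem hx hy
  | inv x _ hx =>
    have : g * x⁻¹ * g⁻¹ = (g * x * g⁻¹)⁻¹ := by group
    rw [this]
    exact (pairs C).inv_mem hx

theorem inv_of_mem (hC : Conjugations C) {c : G} (hc : c ∈ C) : c⁻¹ = c :=
  inv_eq_of_mul_eq_one_left (hC.sq c hc)

/-- If the products of two complex conjugations commute, then they generate an abelian group. -/
theorem pairs_comm (h : ProductsCommute C) : ∀ x ∈ pairs C, ∀ y ∈ pairs C, x * y = y * x := by
  intro x hx y hy
  have h1 : ∀ a ∈ C, ∀ b ∈ C, ∀ y ∈ pairs C, Commute (a * b) y := by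
    intro a ha b hb y hy
    induction hy using Subgroup.closure_induction with
    | mem y hy =>
      obtain ⟨c, hc, d, hd, rfl⟩ := hy
      exact h a ha b hb c hc d hd
    | one => exact Commute.one_right _
    | mul x y _ _ hx hy => exact hx.mul_right hy
    | inv x _ hx => exact hx.inv_right
  have h2 : Commute x y := by
    induction hx using Subgroup.closure_induction with
    | mem x hx =>
      obtain ⟨a, ha, b, hb, rfl⟩ := hx
      exact h1 a ha b hb y hy
    | one => exact Commute.one_left _
    | mul x y _ _ hx hy => exact hx.mul_left hy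
    | inv x _ hx => exact hx.inv_left
  exact h2

theorem productsCommute_of_pairs (h : ∀ x ∈ pairs C, ∀ y ∈ pairs C, x * y = y * x) :
    ProductsCommute C := fun _ ha _ hb _ hc _ hd =>
  h _ (mul_mem_pairs ha hb) _ (mul_mem_pairs hc hd)

/-- Complex conjugations invert the products of two complex conjugations. -/
theorem conj_pairs (hC : Conjugations C) (h : ProductsCommute C) {c : G} (hc : c ∈ C) :
    ∀ x ∈ pairs C, c * x * c⁻¹ = x⁻¹ := by
  intro x hx
  have hci := inv_of_mem hC hc
  induction hx using Subgroup.closure_induction with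
  | mem x hx =>
    obtain ⟨a, ha, b, hb, rfl⟩ := hx
    -- `c a b c = b a` since `(c a) (b c) = (b c) (c a) = b a`
    have h1 := h c hc a ha b hb c hc
    have h2 : b * c * (c * a) = b * a := by
      rw [mul_assoc, ← mul_assoc c c a, hC.sq c hc, one_mul]
    rw [hci, mul_inv_rev, inv_of_mem hC ha, inv_of_mem hC hb, ← h2, ← h1]
    group
  | one => rw [mul_one, mul_inv_cancel, inv_one]
  | mul x y hx' hy' hx hy =>
    have : c * (x * y) * c⁻¹ = (c * x * c⁻¹) * (c * y * c⁻¹) := by group
    rw [this, hx, hy, mul_inv_rev]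
    exact pairs_comm h _ ((pairs C).inv_mem hx') _ ((pairs C).inv_mem hy')
  | inv x _ hx =>
    have : c * x⁻¹ * c⁻¹ = (c * x * c⁻¹)⁻¹ := by group
    rw [this, hx]

/-- The fields in `realLin` and `cmLin` are fixed by the products of two complex conjugations. -/
theorem pairs_le (hC : Conjugations C) {p : Subgroup G × (G → ℂ)}
    (hp : p ∈ realLin C ∪ cmLin C) : pairs C ≤ p.1 := by
  refine (Subgroup.closure_le _).2 ?_
  rintro _ ⟨a, ha, b, hb, rfl⟩
  rcases hp with ⟨h1, -⟩ | ⟨⟨D, hD, hle, h2⟩, h3, -⟩
  · exact p.1.mul_mem (h1 ha) (h1 hb)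
  · have h4 := Subgroup.mul_mem_iff_of_index_two (H := p.1.subgroupOf D) h2
      (a := ⟨a, hD ha⟩) (b := ⟨b, hD hb⟩)
    have h5 : (⟨a, hD ha⟩ : D) * ⟨b, hD hb⟩ ∈ p.1.subgroupOf D := by
      rw [h4]
      constructor
      · intro h
        exact absurd (Subgroup.mem_subgroupOf.1 h) (h3 a ha)
      · intro h
        exact absurd (Subgroup.mem_subgroupOf.1 h) (h3 b hb)
    exact Subgroup.mem_subgroupOf.1 h5

end Pool.Agent.ConjProd
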