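import Pool.Agent.ConjProd.Types

/-!
# Characters of subfields
-/

set_option linter.unusedSectionVars false

namespace Pool.Agent.ConjProd

open ParityOdd
open scoped Classical

variable {G : Type} [Group G] [Fintype G] {C : Set G}

theorem sum_quot {N : Subgroup G} [N.Normal] [Fintype (G ⧸ N)] (F : G ⧸ N → ℂ) :
    ∑ x : G, F (QuotientGroup.mk' N x) = (Nat.card N : ℂ) * ∑ q : G ⧸ N, F q := by
  rw [← Finset.sum_fiberwise Finset.univ (fun x : G => QuotientGroup.mk' N x), Finset.mul_sum]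
  refine Finset.sum_congr rfl fun q _ => ?_
  have h1 : ∀ x ∈ Finset.univ.filter (fun x : G => QuotientGroup.mk' N x = q),
      F (QuotientGroup.mk' N x) = F q := fun x hx => by rw [(Finset.mem_filter.1 hx).2]
  rw [Finset.sum_congr rfl h1, Finset.sum_const, nsmul_eq_mul]
  congr 2
  obtain ⟨y, rfl⟩ := QuotientGroup.mk'_surjective N q
  rw [Nat.card_eq_fintype_card, ← Finset.card_univ]
  symm
  refine Finset.card_bij (fun (n : N) _ => y * n) ?_ ?_ ?_
  · intro n _
    rw [Finset.mem_filter]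
    refine ⟨Finset.mem_univ _, ?_⟩
    rw [map_mul]
    have : QuotientGroup.mk' N (n : G) = 1 := (QuotientGroup.eq_one_iff _).2 n.2
    rw [this, mul_one]
  · intro a _ b _ h
    exact Subtype.ext (mul_left_cancel h)
  · intro x hx
    have h2 : QuotientGroup.mk' N y = QuotientGroup.mk' N x := (Finset.mem_filter.1 hx).2.symm
    have h3 : y⁻¹ * x ∈ N := QuotientGroup.eq.1 h2
    exact ⟨⟨_, h3⟩, Finset.mem_univ _, by group⟩

theorem Ind_comap {N : Subgroup G} [N.Normal] [Fintype (G ⧸ N)] (M : Subgroup (G ⧸ N))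
    (χ : G ⧸ N → ℂ) (g : G) :
    Ind (M.comap (QuotientGroup.mk' N)) (fun x => χ (QuotientGroup.mk' N x)) g =
      Ind M χ (QuotientGroup.mk' N g) := by
  have hcard : (Nat.card (M.comap (QuotientGroup.mk' N)) : ℂ) = Nat.card N * Nat.card M := by
    have h := sum_quot (N := N) (fun q => if q ∈ M then (1 : ℂ) else 0)
    rw [Finset.sum_boole, Finset.sum_boole] at h
    have e1 : (Nat.card (M.comap (QuotientGroup.mk' N)) : ℂ) =
        (Finset.univ.filter fun x : G => QuotientGroup.mk' N x ∈ M).card := by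
      rw [Nat.card_eq_fintype_card, Fintype.card_subtype]
      rfl
    have e2 : (Nat.card M : ℂ) = (Finset.univ.filter fun x : G ⧸ N => x ∈ M).card := by
      rw [Nat.card_eq_fintype_card, Fintype.card_subtype]
    rw [e1, e2, h]
  have hN : (Nat.card N : ℂ) ≠ 0 := by exact_mod_cast Nat.card_pos.ne'
  have hM : (Nat.card M : ℂ) ≠ 0 := by exact_mod_cast Nat.card_pos.ne'
  unfold Ind
  rw [hcard]
  have h := sum_quot (N := N) (fun q => if q⁻¹ * QuotientGroup.mk' N g * q ∈ M then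
    χ (q⁻¹ * QuotientGroup.mk' N g * q) else 0)
  have e : ∀ x : G, (if x⁻¹ * g * x ∈ M.comap (QuotientGroup.mk' N) then
      χ (QuotientGroup.mk' N (x⁻¹ * g * x)) else 0) =
      if (QuotientGroup.mk' N x)⁻¹ * QuotientGroup.mk' N g * QuotientGroup.mk' N x ∈ M then
        χ ((QuotientGroup.mk' N x)⁻¹ * QuotientGroup.mk' N g * QuotientGroup.mk' N x) else 0 := by
    intro x
    rw [← map_inv, ← map_mul, ← map_mul]
    rfl
  rw [Finset.sum_congr rfl fun x _ => e x, h]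
  field_simp

theorem Ind_congr' {M : Subgroup G} {f f' : G → ℂ} (h : ∀ x ∈ M, f x = f' x) :
    Ind M f = Ind M f' := by
  funext g
  unfold Ind
  congr 1
  refine Finset.sum_congr rfl fun x _ => ?_
  by_cases hx : x⁻¹ * g * x ∈ M
  · rw [if_pos hx, if_pos hx, h _ hx]
  · rw [if_neg hx, if_neg hx]

/-- The forward direction for characters of subfields of a Galois extension in which the products
of two complex conjugations commute. -/
theorem forward' (hC : Conjugations C) {N : Subgroup G} (hN : N.Normal)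
    (hcom : ∀ a ∈ C, ∀ b ∈ C, ∀ c ∈ C, ∀ d ∈ C,
      (a * b) * (c * d) * (a * b)⁻¹ * (c * d)⁻¹ ∈ N)
    {S : Set (Subgroup G × (G → ℂ))} (hS : realQuad C ∪ cmAnti C ⊆ S)
    {p : Subgroup G × (G → ℂ)} (hp : Allowed C S p) (hNp : N ≤ p.1) (h1 : ∀ x ∈ N, p.2 x = 1) :
    Ind p.1 p.2 ∈ AddSubmonoid.closure (inds S) := by
  letI : Fintype (G ⧸ N) := Fintype.ofFinite _
  let π := QuotientGroup.mk' N
  have hπs : Function.Surjective π := QuotientGroup.mk'_surjective N
  let C' : Set (G ⧸ N) := π '' C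
  let S' : Set (Subgroup (G ⧸ N) × ((G ⧸ N) → ℂ)) :=
    {q | (q.1.comap π, fun x => q.2 (π x)) ∈ S}
  have hC' : Conjugations C' := by
    refine ⟨hC.nonempty.image _, ?_, ?_⟩
    · rintro _ ⟨c, hc, rfl⟩
      rw [← map_mul, hC.sq c hc, map_one]
    · rintro _ ⟨c, hc, rfl⟩ g
      obtain ⟨g, rfl⟩ := hπs g
      exact ⟨g * c * g⁻¹, hC.conj c hc g, by rw [map_mul, map_mul, map_inv]⟩
  have hcom' : ProductsCommute C' := by
    rintro _ ⟨a, ha, rfl⟩ _ ⟨b, hb, rfl⟩ _ ⟨c, hc, rfl⟩ _ ⟨d, hd, rfl⟩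
    have h2 : π ((a * b) * (c * d) * (a * b)⁻¹ * (c * d)⁻¹) = 1 :=
      (QuotientGroup.eq_one_iff _).2 (hcom a ha b hb c hc d hd)
    rw [map_mul, map_mul, map_mul, map_inv, map_inv, map_mul, map_mul, mul_inv_eq_one,
      mul_inv_eq_iff_eq_mul] at h2
    exact h2
  have hlin : ∀ (M : Subgroup (G ⧸ N)) (χ : (G ⧸ N) → ℂ), IsLin M χ →
      IsLin (M.comap π) (fun x => χ (π x)) := by
    intro M χ h
    refine ⟨?_, fun x hx y hy => ?_⟩
    · show χ (π 1) = 1
      rw [map_one]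
      exact h.1
    show χ (π (x * y)) = _
    rw [map_mul]
    exact h.2 _ hx _ hy
  have hCM : ∀ M : Subgroup (G ⧸ N), C' ⊆ M → C ⊆ M.comap π := fun M h c hc => h ⟨c, hc, rfl⟩
  have hcm : ∀ q ∈ cmLin C', (q.1.comap π, fun x => q.2 (π x)) ∈ cmLin C := by
    rintro q ⟨⟨D, hD1, hD2, hD3⟩, h3, h4⟩
    refine ⟨⟨D.comap π, hCM D hD1, Subgroup.comap_mono hD2, ?_⟩, fun c hc h => h3 _ ⟨c, hc, rfl⟩ h,
      hlin _ _ h4⟩
    show (q.1.comap π).relIndex (D.comap π) = 2
    rw [Subgroup.relIndex_comap, Subgroup.map_comap_eq_self_of_surjective hπs]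
    exact hD3
  have hreal : ∀ q ∈ realLin C', (q.1.comap π, fun x => q.2 (π x)) ∈ realLin C :=
    fun q h => ⟨hCM _ h.1, hlin _ _ h.2⟩
  have hS' : realQuad C' ∪ cmAnti C' ⊆ S' := by
    rintro q (h | h)
    · exact hS (Or.inl ⟨hCM _ h.1, hlin _ _ h.2.1, fun x hx => h.2.2 _ hx⟩)
    · refine hS (Or.inr ⟨hcm q h.1, fun c hc u hu => ?_⟩)
      have h2 := h.2 (π c) ⟨c, hc, rfl⟩ (π u) hu
      show q.2 (π (c * u * c⁻¹)) = _
      rw [map_mul, map_mul, map_inv]
      exact h2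
  -- the character on the quotient
  let θ : (G ⧸ N) → ℂ := fun q => p.2 q.out
  have hθ : ∀ x ∈ p.1, θ (π x) = p.2 x := by
    intro x hx
    have h2 : x⁻¹ * (π x).out ∈ N := by
      have h3 : π x = π (π x).out := (QuotientGroup.out_eq' (π x)).symm
      exact QuotientGroup.eq.1 h3
    have h4 : (π x).out = x * (x⁻¹ * (π x).out) := by group
    show p.2 (π x).out = p.2 x
    rw [h4, hp.1.2 _ hx _ (hNp h2), h1 _ h2, mul_one]
  have hker : π.ker ≤ p.1 := by
    rw [QuotientGroup.ker_mk']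
    exact hNp
  have hcm1 : (p.1.map π).comap π = p.1 := Subgroup.comap_map_eq_self hker
  have hθlin : IsLin (p.1.map π) θ := by
    refine ⟨?_, ?_⟩
    · rw [← map_one π, hθ 1 p.1.one_mem, hp.1.1]
    · rintro _ ⟨x, hx, rfl⟩ _ ⟨y, hy, rfl⟩
      rw [← map_mul, hθ _ (p.1.mul_mem hx hy), hθ _ hx, hθ _ hy, hp.1.2 x hx y hy]
  have hp' : Allowed C' S' (p.1.map π, θ) := by
    refine ⟨hθlin, ?_⟩
    rcases hp.2 with ⟨c, hc, h⟩ | ⟨h, hq⟩ | h
    · refine Or.inl ⟨π c, ⟨c, hc, rfl⟩, ?_⟩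
      rintro _ ⟨x, hx, rfl⟩
      have e : π c * π x * (π c)⁻¹ = π (c * x * c⁻¹) := by rw [map_mul, map_mul, map_inv]
      show π c * π x * (π c)⁻¹ ∈ p.1.map π ∧ θ (π c * π x * (π c)⁻¹) = (θ (π x))⁻¹
      rw [e, hθ _ (h x hx).1, hθ _ hx]
      exact ⟨⟨_, (h x hx).1, rfl⟩, (h x hx).2⟩
    · refine Or.inr (Or.inl ⟨fun q hq => h (hcm q hq), hθlin, ?_⟩)
      rintro _ ⟨x, hx, rfl⟩
      show θ (π x) ^ 2 = 1
      rw [hθ _ hx]
      exact hq.2 x hx
    · refine Or.inr (Or.inr ?_)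
      rintro q (hq | hq)
      · exact h (Or.inl (hreal q hq))
      · exact h (Or.inr (hcm q hq))
  have hmain := forward hC' hcom' hS' hp'
  have hcl : ∀ f ∈ AddSubmonoid.closure (inds S'), (fun g => f (π g)) ∈
      AddSubmonoid.closure (inds S) := by
    intro f hf
    induction hf using AddSubmonoid.closure_induction with
    | mem f hf =>
      obtain ⟨q, hq, rfl⟩ := hf
      refine AddSubmonoid.subset_closure ⟨_, hq, ?_⟩
      funext g
      exact (Ind_comap q.1 q.2 g).symm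
    | zero => exact zero_mem _
    | add f g _ _ hf hg => exact add_mem hf hg
  have h2 := hcl _ hmain
  have h3 : Ind p.1 p.2 = fun g => Ind (p.1.map π) θ (π g) := by
    funext g
    rw [← Ind_comap, hcm1]
    exact congrFun (Ind_congr' fun x hx => (hθ x hx).symm) g
  rw [h3]
  exact h2

end Pool.Agent.ConjProd
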