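import Pool.Agent.ConjProd.Pairs
import Pool.Agent.ConjProd.Decomp

/-!
# The pieces are characters of totally real fields and of CM fields
-/

set_option linter.unusedSectionVars false

namespace Pool.Agent.ConjProd

open ParityOdd

variable {G : Type} [Group G] [Fintype G] {C : Set G}

theorem lin_ne_zero {M : Subgroup G} {l : G → ℂ} (hl : IsLin M l) {x : G} (hx : x ∈ M) :
    l x ≠ 0 := by
  intro h
  have h1 := hl.2 x hx x⁻¹ (M.inv_mem hx)
  rw [mul_inv_cancel, hl.1, h, zero_mul] at h1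
  exact one_ne_zero h1

theorem lin_inv {M : Subgroup G} {l : G → ℂ} (hl : IsLin M l) {x : G} (hx : x ∈ M) :
    l x⁻¹ = (l x)⁻¹ := by
  have h1 := hl.2 x hx x⁻¹ (M.inv_mem hx)
  rw [mul_inv_cancel, hl.1] at h1
  exact eq_inv_of_mul_eq_one_right h1.symm

/-- A complex conjugation normalises the groups which contain the products of two complex
conjugations. -/
theorem conj_mem_of_pairs_le (hC : Conjugations C) {M : Subgroup G} (hM : pairs C ≤ M) {c : G}
    (hc : c ∈ C) {u : G} (hu : u ∈ M) : c * u * c⁻¹ ∈ M := by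
  have h1 : c * (u * c * u⁻¹) ∈ M := hM (mul_mem_pairs hc (hC.conj c hc u))
  have h2 : c * u * c⁻¹ = c * (u * c * u⁻¹) * u := by
    rw [inv_of_mem hC hc]
    group
  rw [h2]
  exact M.mul_mem h1 hu

/-- A group without complex conjugations has index two in a group with all of them. -/
theorem cm_of_disjoint (hC : Conjugations C) {M : Subgroup G} (hM : pairs C ≤ M)
    (h0 : ∀ c ∈ C, c ∉ M) : ∃ D : Subgroup G, C ⊆ D ∧ M ≤ D ∧ M.relIndex D = 2 := by
  obtain ⟨c, hc⟩ := hC.nonempty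
  have hci := inv_of_mem hC hc
  have hcc := hC.sq c hc
  have hconj : ∀ u ∈ M, c * u * c ∈ M := by
    intro u hu
    have := conj_mem_of_pairs_le hC hM hc hu
    rwa [hci] at this
  refine ⟨{ carrier := {g | g ∈ M ∨ g * c ∈ M}, one_mem' := Or.inl M.one_mem,
            mul_mem' := ?_, inv_mem' := ?_ }, ?_, fun g hg => Or.inl hg, ?_⟩
  · rintro g h (hg | hg) (hh | hh)
    · exact Or.inl (M.mul_mem hg hh)
    · refine Or.inr ?_
      rw [mul_assoc]
      exact M.mul_mem hg hh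
    · refine Or.inr ?_
      have e : g * h * c = (g * c) * (c * h * c) := by
        rw [mul_assoc g c, ← mul_assoc c (c * h) c, ← mul_assoc c c h, hcc, one_mul, mul_assoc]
      rw [e]
      exact M.mul_mem hg (hconj h hh)
    · refine Or.inl ?_
      have e : g * h = (g * c) * (c * (h * c) * c) := by
        rw [mul_assoc g c, mul_assoc c (h * c) c, mul_assoc h c c, hcc, mul_one, ← mul_assoc c c h,
          hcc, one_mul]
      rw [e]
      exact M.mul_mem hg (hconj _ hh)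
  · rintro g (hg | hg)
    · exact Or.inl (M.inv_mem hg)
    · refine Or.inr ?_
      have e : g⁻¹ * c = c * (g * c)⁻¹ * c := by
        rw [mul_inv_rev, hci, ← mul_assoc c c, hcc, one_mul]
      show g⁻¹ * c ∈ M
      rw [e]
      exact hconj _ (M.inv_mem hg)
  · intro d hd
    exact Or.inr (hM (mul_mem_pairs hd hc))
  · rw [Subgroup.relIndex, Subgroup.index_eq_two_iff]
    refine ⟨⟨c, Or.inr (by rw [hcc]; exact M.one_mem)⟩, fun b => ?_⟩
    have e1 : (b * (⟨c, Or.inr (by rw [hcc]; exact M.one_mem)⟩ : _)) ∈ M.subgroupOf _ ↔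
        (b : G) * c ∈ M := Subgroup.mem_subgroupOf
    rw [e1, Subgroup.mem_subgroupOf]
    by_cases hb : (b : G) ∈ M
    · right
      exact ⟨hb, fun h => h0 c hc ((M.mul_mem_cancel_left hb).1 h)⟩
    · left
      rcases b.2 with h | h
      · exact absurd h hb
      · exact ⟨h, hb⟩

theorem forward (hC : Conjugations C) (hcom : ProductsCommute C)
    {S : Set (Subgroup G × (G → ℂ))} (hS : realQuad C ∪ cmAnti C ⊆ S)
    {p : Subgroup G × (G → ℂ)} (hp : Allowed C S p) :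
    Ind p.1 p.2 ∈ AddSubmonoid.closure (inds S) := by
  obtain ⟨hθ, hp⟩ := hp
  refine decomp (pairs C) (pairs_normal hC) (pairs_comm hcom) p.1 p.2 hθ _ ?_
  intro M χ hAM hMK hχ hχθ _
  refine AddSubmonoid.subset_closure ⟨(M, χ), ?_, rfl⟩
  have hnorm := pairs_normal hC
  -- the decomposition of the elements of `M`
  have hdec : ∀ x ∈ M, ∃ h ∈ p.1, h ∈ M ∧ ∃ a ∈ pairs C, x = h * a := by
    intro x hx
    obtain ⟨h, hh, a, ha, rfl⟩ := Subgroup.mem_sup_of_normal_right.1 (hMK hx)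
    exact ⟨h, hh, (M.mul_mem_cancel_right (hAM ha)).1 hx, a, ha, rfl⟩
  -- conjugation by a complex conjugation normalising `H`
  have hanti : ∀ c ∈ C, (∀ h ∈ p.1, c * h * c⁻¹ ∈ p.1 ∧ p.2 (c * h * c⁻¹) = (p.2 h)⁻¹) →
      ∀ x ∈ M, χ (c * x * c⁻¹) = (χ x)⁻¹ := by
    intro c hc h0 x hx
    obtain ⟨h, hh, hhM, a, ha, rfl⟩ := hdec x hx
    have h1 : c * (h * a) * c⁻¹ = (c * h * c⁻¹) * a⁻¹ := by
      rw [← conj_pairs hC hcom hc a ha]
      group
    have h2 : c * h * c⁻¹ ∈ M := conj_mem_of_pairs_le hC hAM hc hhM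
    rw [h1, hχ.2 _ h2 _ (M.inv_mem (hAM ha)), hχθ _ (h0 h hh).1 h2, (h0 h hh).2,
      lin_inv hχ (hAM ha), hχ.2 _ hhM _ (hAM ha), hχθ _ hh hhM, mul_inv]
  by_cases hMC : ∃ c ∈ C, c ∈ M
  · obtain ⟨c₁, hc₁, hc₁M⟩ := hMC
    have hCM : C ⊆ M := by
      intro c hc
      have h1 := hAM (mul_mem_pairs hc hc₁)
      exact (M.mul_mem_cancel_right hc₁M).1 h1
    have hreal : (M, χ) ∈ realLin C := ⟨hCM, hχ⟩
    have hquad : (∀ x ∈ M, χ x ^ 2 = 1) → (M, χ) ∈ S := fun h =>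
      hS (Or.inl ⟨hCM, hχ, h⟩)
    have hA2 : ∀ a ∈ pairs C, χ a ^ 2 = 1 := by
      intro a ha
      have h1 := conj_pairs hC hcom hc₁ a ha
      have h2 : χ (c₁ * a * c₁⁻¹) = χ a := by
        rw [hχ.2 _ (M.mul_mem hc₁M (hAM ha)) _ (M.inv_mem hc₁M), hχ.2 _ hc₁M _ (hAM ha),
          lin_inv hχ hc₁M, mul_comm, ← mul_assoc, inv_mul_cancel₀ (lin_ne_zero hχ hc₁M), one_mul]
      rw [h1, lin_inv hχ (hAM ha)] at h2
      have h3 := lin_ne_zero hχ (hAM ha)
      rw [sq]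
      nth_rewrite 1 [← h2]
      exact inv_mul_cancel₀ h3
    rcases hp with ⟨c₀, hc₀, h0⟩ | ⟨-, hq⟩ | h
    · refine hquad fun x hx => ?_
      have h1 := hanti c₀ hc₀ h0 x hx
      have h2 : χ (c₀ * x * c₀⁻¹) = χ x := by
        rw [hχ.2 _ (M.mul_mem (hCM hc₀) hx) _ (M.inv_mem (hCM hc₀)), hχ.2 _ (hCM hc₀) _ hx,
          lin_inv hχ (hCM hc₀), mul_comm, ← mul_assoc,
          inv_mul_cancel₀ (lin_ne_zero hχ (hCM hc₀)), one_mul]
      rw [h1] at h2
      have h3 := lin_ne_zero hχ hx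
      rw [sq]
      nth_rewrite 1 [← h2]
      exact inv_mul_cancel₀ h3
    · refine hquad fun x hx => ?_
      obtain ⟨h, hh, hhM, a, ha, rfl⟩ := hdec x hx
      rw [hχ.2 _ hhM _ (hAM ha), mul_pow, hχθ _ hh hhM, hq.2 h hh, hA2 a ha, one_mul]
    · exact h (Or.inl hreal)
  · push Not at hMC
    have hcm : (M, χ) ∈ cmLin C := ⟨cm_of_disjoint hC hAM hMC, hMC, hχ⟩
    rcases hp with ⟨c₀, hc₀, h0⟩ | ⟨h, -⟩ | h
    · refine hS (Or.inr ⟨hcm, fun c hc u hu => ?_⟩)
      have h1 := hanti c₀ hc₀ h0 u hu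
      have h2 : c * c₀ ∈ M := hAM (mul_mem_pairs hc hc₀)
      have h3 : c₀ * u * c₀⁻¹ ∈ M := conj_mem_of_pairs_le hC hAM hc₀ hu
      have h4 : c * u * c⁻¹ = (c * c₀) * (c₀ * u * c₀⁻¹) * (c * c₀)⁻¹ := by
        have e : c = (c * c₀) * c₀ := by rw [mul_assoc, hC.sq c₀ hc₀, mul_one]
        nth_rewrite 1 2 [e]
        group
      show χ (c * u * c⁻¹) = (χ u)⁻¹
      rw [h4, hχ.2 _ (M.mul_mem h2 h3) _ (M.inv_mem h2), hχ.2 _ h2 _ h3, lin_inv hχ h2, mul_comm,
        ← mul_assoc, inv_mul_cancel₀ (lin_ne_zero hχ h2), one_mul, h1]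
    · exact h hcm
    · exact h (Or.inr hcm)

end Pool.Agent.ConjProd
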